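import Pool.Agent.Lib.MP_94c136_al.RZ.Pre

/-!
The amalgamation class.
-/

set_option autoImplicit false
set_option linter.unusedSectionVars false

namespace Pool.Agent.Lib.MP_94c136_al.RZ

open scoped Pointwise

variable {X : Type*} [DecidableEq X] {n : X → X → ℕ} {E : Set (Finset (X × ℕ))}

/-- an injection on a finite set extends to a permutation -/
theorem exists_perm (lam : Equiv.Perm X) (A : Finset (X × ℕ)) (φ : X × ℕ → X × ℕ)
    (hinj : Set.InjOn φ A) (htw : ∀ a ∈ A, (φ a).1 = lam a.1) :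
    ∃ ψ : Equiv.Perm (X × ℕ), Tw lam ψ ∧ ∀ a ∈ A, ψ a = φ a := by
  induction A using Finset.induction_on with
  | empty => exact ⟨Equiv.prodCongr lam (Equiv.refl _), fun _ => rfl, fun a ha => by simp at ha⟩
  | insert a A ha ih =>
    obtain ⟨ψ, h1, h2⟩ := ih (hinj.mono (by simp)) fun b hb => htw b (Finset.mem_insert_of_mem hb)
    have hc : (ψ a).1 = (φ a).1 := by rw [h1 a, htw a (Finset.mem_insert_self _ _)]
    refine ⟨Equiv.swap (ψ a) (φ a) * ψ, fun m => ?_, fun b hb => ?_⟩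
    · rw [Equiv.Perm.mul_apply, ← h1 m, Equiv.swap_apply_def]
      split_ifs with e1 e2
      · rw [e1, hc]
      · rw [e2, hc]
      · rfl
    · rw [Equiv.Perm.mul_apply]
      rcases Finset.mem_insert.1 hb with rfl | hb'
      · exact Equiv.swap_apply_left _ _
      · have hne : b ≠ a := fun e => ha (e ▸ hb')
        rw [Equiv.swap_apply_of_ne_of_ne (fun e => hne (ψ.injective e)), h2 b hb']
        rw [h2 b hb']
        exact fun e => hne (hinj (Finset.mem_coe.2 hb)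
          (Finset.mem_coe.2 (Finset.mem_insert_self _ _)) e)

/-- moving the points outside `A` away from `D` -/
theorem exists_move {A B D : Finset (X × ℕ)} (hAB : A ⊆ B) (hAD : A ⊆ D) :
    ∃ ψ : Equiv.Perm (X × ℕ), Tw 1 ψ ∧ (∀ a ∈ A, ψ a = a) ∧ D ∩ ψ • B = A := by
  obtain ⟨N, hN⟩ : ∃ N : ℕ, ∀ d ∈ D, d.2 < N :=
    ⟨D.sup (fun d => d.2) + 1, fun d hd =>
      Nat.lt_succ_of_le (Finset.le_sup (f := fun d : X × ℕ => d.2) hd)⟩
  obtain ⟨ψ, h1, h2⟩ := exists_perm (1 : Equiv.Perm X) B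
    (fun m => if m ∈ A then m else (m.1, m.2 + N)) (by
      intro m _ m' _ e
      by_cases hm : m ∈ A <;> by_cases hm' : m' ∈ A <;> simp only [hm, hm', if_true, if_false] at e
      · exact e
      · have := hN m (hAD hm)
        rw [e] at this
        simp only at this
        omega
      · have := hN m' (hAD hm')
        rw [← e] at this
        simp only at this
        omega
      · simp only [Prod.mk.injEq] at e
        exact Prod.ext e.1 (by omega))
    (fun a _ => by by_cases ha : a ∈ A <;> simp [ha])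
  have h3 : ∀ a ∈ A, ψ a = a := fun a ha => by rw [h2 a (hAB ha), if_pos ha]
  refine ⟨ψ, h1, h3, ?_⟩
  ext d
  rw [Finset.mem_inter, mem_smul_iff]
  constructor
  · rintro ⟨hd, b, hb, rfl⟩
    by_cases hbA : b ∈ A
    · rw [h3 b hbA]; exact hbA
    · have := hN _ hd
      rw [h2 b hb, if_neg hbA] at this
      simp only at this
      omega
  · exact fun hd => ⟨hAD hd, d, hAB hd, h3 d hd⟩

theorem Pat.smul {lam : Equiv.Perm X} {g : Equiv.Perm (X × ℕ)} (hl : Pres n lam) (hg : Tw lam g)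
    {e : Finset (X × ℕ)} (he : Pat n e) : Pat n (g • e) := by
  obtain ⟨x, b, hb, hx, ha, hc⟩ := he
  refine ⟨lam x, g b, app_mem_smul.2 hb, ?_, ?_, ?_⟩
  · rw [hg b]; exact fun e => hx (lam.injective e)
  · intro a' ha' hne
    obtain ⟨a, h1, rfl⟩ := mem_smul_iff.1 ha'
    rw [hg a, ha a h1 fun e => hne (by rw [e])]
  · rw [Finset.card_smul_finset, hc, hg b, hl x b.1 hx]

theorem Good.res (h : Good n E) (B : Finset (X × ℕ)) : Good n (res E B) := by
  refine ⟨fun e he => h.pat e he.1, fun Y => ?_, fun e he Y hY hc => ?_⟩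
  · refine lt_of_lt_of_le (h.bd Y) (Nat.pow_le_pow_right (by norm_num) (Int.toNat_le_toNat ?_))
    exact del_anti fun e _ he => he.1
  · exact (h.sm e he.1 Y hY hc).res (hY.trans he.2)

theorem Good.tr (h : Good n E) {lam : Equiv.Perm X} {g : Equiv.Perm (X × ℕ)} (hl : Pres n lam)
    (hg : Tw lam g) : Good n (tr g E) := by
  refine ⟨fun e he => ?_, fun Y => ?_, fun e he Y hY hc => ?_⟩
  · have := (h.pat _ he).smul hl hg
    rwa [smul_inv_smul] at this
  · have h1 := h.bd (g⁻¹ • Y)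
    have h2 : del (RZ.tr g E) (g • g⁻¹ • Y) = del E (g⁻¹ • Y) :=
      del_smul fun e _ => (smul_mem_tr g E e).symm
    rw [smul_inv_smul] at h2
    rw [Finset.card_smul_finset] at h1
    rw [h2]
    exact h1
  · have := (h.sm _ he (g⁻¹ • Y) (Finset.smul_finset_subset_smul_finset_iff.2 hY)
      (by rw [Finset.card_smul_finset, Finset.card_smul_finset]; exact hc)).tr g
    rwa [smul_inv_smul] at this

theorem good_empty (n : X → X → ℕ) : Good n (∅ : Set (Finset (X × ℕ))) := by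
  refine ⟨fun e he => he.elim, fun Y => ?_, fun e he => he.elim⟩
  have : del (∅ : Set (Finset (X × ℕ))) Y = Y.card := by simp [del, cnt]
  rw [this, Int.toNat_natCast]
  exact Nat.lt_two_pow_self

theorem good_single {e : Finset (X × ℕ)} (he : Pat n e) (h3 : 3 ≤ e.card) :
    Good n ({e} : Set (Finset (X × ℕ))) := by
  have d1 : ∀ Y, e ⊆ Y → del ({e} : Set (Finset (X × ℕ))) Y = Y.card - 1 := by
    intro Y hY
    have : cnt ({e} : Set (Finset (X × ℕ))) Y = 1 := by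
      refine Finset.card_eq_one.2 ⟨e, ?_⟩
      ext f
      simp only [Finset.mem_filter, Finset.mem_powerset, Set.mem_singleton_iff,
        Finset.mem_singleton]
      exact ⟨fun hf => hf.2, fun hf => ⟨hf ▸ hY, hf⟩⟩
    rw [del, this, Nat.cast_one]
  have d0 : ∀ Y, ¬ e ⊆ Y → del ({e} : Set (Finset (X × ℕ))) Y = Y.card := by
    intro Y hY
    have : cnt ({e} : Set (Finset (X × ℕ))) Y = 0 := by
      refine Finset.card_eq_zero.2 ?_
      ext f
      simp only [Finset.mem_filter, Finset.mem_powerset, Set.mem_singleton_iff,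
        Finset.notMem_empty, iff_false]
      exact fun hf => hY (hf.2 ▸ hf.1)
    rw [del, this, Nat.cast_zero, sub_zero]
  refine ⟨fun f hf => by rw [Set.mem_singleton_iff.1 hf]; exact he, fun Y => ?_,
    fun f hf Y hY hc W hW => ?_⟩
  · by_cases hY : e ⊆ Y
    · have h4 := Finset.card_le_card hY
      obtain ⟨k, hk⟩ : ∃ k, Y.card = k + 3 := ⟨Y.card - 3, by omega⟩
      have h5 : (del ({e} : Set (Finset (X × ℕ))) Y).toNat = k + 2 := by
        rw [d1 Y hY, hk]; omega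
      have h6 : k < 2 ^ k := Nat.lt_two_pow_self
      rw [h5, hk, pow_add]
      omega
    · rw [d0 Y hY, Int.toNat_natCast]
      exact Nat.lt_two_pow_self
  · rw [Set.mem_singleton_iff.1 hf] at hY hc
    have h4 := Finset.card_lt_card hW
    by_cases h1 : e ⊆ Y
    · rw [d1 Y h1, d1 W (h1.trans hW.subset)]; omega
    · have h5 : Y.card < e.card := Finset.card_lt_card ⟨hY, h1⟩
      by_cases h2 : e ⊆ W
      · have := Finset.card_le_card h2
        rw [d0 Y h1, d1 W h2]; omega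
      · rw [d0 Y h1, d0 W h2]; omega

theorem amal_agree {M : Type*} [DecidableEq M] {E1 E2 : Set (Finset M)} {D1 D2 : Finset M}
    (i2 : ∀ e ∈ E2, e ⊆ D2) (hag : ∀ e, e ⊆ D1 ∩ D2 → (e ∈ E1 ↔ e ∈ E2)) (e : Finset M)
    (he : e ⊆ D1) : e ∈ E1 ∪ E2 ↔ e ∈ E1 :=
  ⟨fun h => h.elim id fun h2 => (hag e (Finset.subset_inter he (i2 e h2))).2 h2, Or.inl⟩

theorem amal_key {M : Type*} [DecidableEq M] {E1 E2 : Set (Finset M)} {D1 D2 : Finset M}
    (i1 : ∀ e ∈ E1, e ⊆ D1) (i2 : ∀ e ∈ E2, e ⊆ D2)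
    (hag : ∀ e, e ⊆ D1 ∩ D2 → (e ∈ E1 ↔ e ∈ E2)) (c2 : Cl E2 (D1 ∩ D2)) (Y : Finset M) :
    del E1 (Y \ (D2 \ D1)) ≤ del (E1 ∪ E2) Y ∧
      (Y \ (D2 \ D1) ≠ Y → del E1 (Y \ (D2 \ D1)) < del (E1 ∪ E2) Y) := by
  have hu : Y \ (D2 \ D1) ∪ Y ∩ D2 = Y := by
    ext a
    simp only [Finset.mem_union, Finset.mem_sdiff, Finset.mem_inter]
    tauto
  have hi : Y \ (D2 \ D1) ∩ (Y ∩ D2) = Y ∩ D2 ∩ (D1 ∩ D2) := by
    ext a
    simp only [Finset.mem_sdiff, Finset.mem_inter]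
    tauto
  have hf : Fr (E1 ∪ E2) (Y \ (D2 \ D1)) (Y ∩ D2) := by
    intro e he hs
    rw [hu] at hs
    rcases he with he | he
    · left
      intro a ha
      simp only [Finset.mem_sdiff]
      exact ⟨hs ha, fun h => h.2 (i1 e he ha)⟩
    · exact Or.inr (Finset.subset_inter hs (i2 e he))
  have hm := del_mod hf
  rw [hu, hi] at hm
  have h2 : ∀ e, e ⊆ D2 → (e ∈ E1 ∪ E2 ↔ e ∈ E2) := fun e he =>
    ⟨fun h => h.elim (fun h1 => (hag e (Finset.subset_inter (i1 e h1) he)).1 h1) id, Or.inr⟩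
  have e1 : del (E1 ∪ E2) (Y \ (D2 \ D1)) = del E1 (Y \ (D2 \ D1)) := by
    apply del_congr
    intro e he
    refine ⟨fun h => h.elim id fun h' => (hag e (Finset.subset_inter ?_ (i2 e h'))).2 h', Or.inl⟩
    intro a ha
    have := he ha
    simp only [Finset.mem_sdiff] at this
    by_contra hc
    exact this.2 ⟨i2 e h' ha, hc⟩
  have e2 : del (E1 ∪ E2) (Y ∩ D2) = del E2 (Y ∩ D2) :=
    del_congr fun e he => h2 e (he.trans Finset.inter_subset_right)
  have e3 : del (E1 ∪ E2) (Y ∩ D2 ∩ (D1 ∩ D2)) = del E2 (Y ∩ D2 ∩ (D1 ∩ D2)) :=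
    del_congr fun e he => h2 e (he.trans (Finset.inter_subset_left.trans Finset.inter_subset_right))
  rw [e1, e2, e3] at hm
  refine ⟨by have := c2.inter_le (Y ∩ D2); omega, fun hne => ?_⟩
  have : ¬ Y ∩ D2 ⊆ D1 ∩ D2 := by
    intro hs
    apply hne
    refine Finset.Subset.antisymm Finset.sdiff_subset fun a ha => ?_
    simp only [Finset.mem_sdiff]
    exact ⟨ha, fun h => h.2 (Finset.mem_inter.1 (hs (Finset.mem_inter.2 ⟨ha, h.1⟩))).1⟩
  have := c2.inter_lt this
  omega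

theorem amal_cl {M : Type*} [DecidableEq M] {E1 E2 : Set (Finset M)} {D1 D2 : Finset M}
    (i1 : ∀ e ∈ E1, e ⊆ D1) (i2 : ∀ e ∈ E2, e ⊆ D2)
    (hag : ∀ e, e ⊆ D1 ∩ D2 → (e ∈ E1 ↔ e ∈ E2)) (c2 : Cl E2 (D1 ∩ D2)) :
    Cl (E1 ∪ E2) D1 := by
  intro W hW
  have e1 : del (E1 ∪ E2) D1 = del E1 D1 := del_congr (amal_agree i2 hag)
  have hc : Cl E1 D1 := cl_of_inside i1
  obtain ⟨k1, k2⟩ := amal_key i1 i2 hag c2 W
  rw [e1]
  by_cases h : W \ (D2 \ D1) = W
  · rw [h] at k1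
    exact lt_of_lt_of_le (hc W hW) k1
  · refine lt_of_le_of_lt (hc.le fun a ha => ?_) (k2 h)
    simp only [Finset.mem_sdiff]
    exact ⟨hW.subset ha, fun h' => h'.2 ha⟩

theorem amal {E1 E2 : Set (Finset (X × ℕ))} {D1 D2 : Finset (X × ℕ)} (h1 : Good n E1)
    (h2 : Good n E2) (i1 : ∀ e ∈ E1, e ⊆ D1) (i2 : ∀ e ∈ E2, e ⊆ D2)
    (hag : ∀ e, e ⊆ D1 ∩ D2 → (e ∈ E1 ↔ e ∈ E2)) (c1 : Cl E1 (D1 ∩ D2))
    (c2 : Cl E2 (D1 ∩ D2)) :
    Good n (E1 ∪ E2) ∧ Cl (E1 ∪ E2) D1 ∧ Cl (E1 ∪ E2) D2 ∧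
      (∀ e, e ⊆ D1 → (e ∈ E1 ∪ E2 ↔ e ∈ E1)) ∧ (∀ e, e ⊆ D2 → (e ∈ E1 ∪ E2 ↔ e ∈ E2)) := by
  have hag' : ∀ e, e ⊆ D2 ∩ D1 → (e ∈ E2 ↔ e ∈ E1) := fun e he =>
    (hag e (by rwa [Finset.inter_comm])).symm
  have c1' : Cl E1 (D2 ∩ D1) := by rwa [Finset.inter_comm]
  have a1 := amal_agree i2 hag
  have a2 := amal_agree i1 hag'
  have d1 := amal_cl i1 i2 hag c2
  have d2 := amal_cl i2 i1 hag' c1'
  rw [Set.union_comm] at a2 d2
  refine ⟨⟨fun e he => he.elim (h1.pat e) (h2.pat e), fun Y => ?_, fun e he Y hY hc => ?_⟩,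
    d1, d2, a1, a2⟩
  · obtain ⟨k1, k2⟩ := amal_key i1 i2 hag c2 Y
    obtain ⟨l1, l2⟩ := amal_key i2 i1 hag' c1' Y
    rw [Set.union_comm] at l1 l2
    have b1 := h1.bd (Y \ (D2 \ D1))
    have b2 := h2.bd (Y \ (D1 \ D2))
    by_cases q1 : Y \ (D2 \ D1) = Y
    · rw [q1] at k1 b1
      exact lt_of_lt_of_le b1 (Nat.pow_le_pow_right two_pos (by omega))
    by_cases q2 : Y \ (D1 \ D2) = Y
    · rw [q2] at l1 b2
      exact lt_of_lt_of_le b2 (Nat.pow_le_pow_right two_pos (by omega))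
    have k3 := k2 q1
    have l3 := l2 q2
    have hu : Y \ (D2 \ D1) ∪ Y \ (D1 \ D2) = Y := by
      ext a
      simp only [Finset.mem_union, Finset.mem_sdiff]
      tauto
    have hcard := Finset.card_union_le (Y \ (D2 \ D1)) (Y \ (D1 \ D2))
    rw [hu] at hcard
    rcases hk : (del (E1 ∪ E2) Y).toNat with _ | k
    · have z1 : (del E1 (Y \ (D2 \ D1))).toNat = 0 := by omega
      have z2 : (del E2 (Y \ (D1 \ D2))).toNat = 0 := by omega
      rw [z1] at b1
      rw [z2] at b2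
      omega
    · have z1 : 2 ^ (del E1 (Y \ (D2 \ D1))).toNat ≤ 2 ^ k :=
        Nat.pow_le_pow_right two_pos (by omega)
      have z2 : 2 ^ (del E2 (Y \ (D1 \ D2))).toNat ≤ 2 ^ k :=
        Nat.pow_le_pow_right two_pos (by omega)
      rw [pow_succ]
      omega
  · rcases he with he | he
    · exact d1.of_agree (hY.trans (i1 e he)) (fun e' h' => (a1 e' h').symm) (h1.sm e he Y hY hc)
    · exact d2.of_agree (hY.trans (i2 e he)) (fun e' h' => (a2 e' h').symm) (h2.sm e he Y hY hc)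

/-- edges are recognised by the closed sets -/
theorem Good.edge_iff (h : Good n E) (e : Finset (X × ℕ)) :
    e ∈ E ↔ e.Nonempty ∧ ∀ Y, Y ⊆ e → (Cl E Y ↔ Y.card + 1 ≠ e.card) := by
  constructor
  · intro he
    obtain ⟨x, b, hb, -⟩ := h.pat e he
    refine ⟨⟨b, hb⟩, fun Y hY => ⟨fun hc hcard => ?_, h.sm e he Y hY⟩⟩
    obtain ⟨c, hc1, hc2⟩ := Finset.exists_mem_notMem_of_card_lt_card (s := Y) (t := e) (by omega)
    have : Y = e.erase c := by
      refine Finset.eq_of_subset_of_card_le (Finset.subset_erase.2 ⟨hY, hc2⟩) ?_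
      rw [Finset.card_erase_of_mem hc1]; omega
    exact not_cl_erase he hc1 (this ▸ hc)
  · rintro ⟨⟨b, hb⟩, hcl⟩
    have h1 : Cl E e := (hcl e (Finset.Subset.refl _)).2 (by omega)
    have h2 : ¬ Cl E (e.erase b) := fun hc =>
      (hcl _ (Finset.erase_subset _ _)).1 hc (Finset.card_erase_add_one hb)
    have h3 : del E e ≤ del E (e.erase b) := by
      by_contra hlt
      refine h2 fun W hW => ?_
      by_cases hbW : b ∈ W
      · have hsub : e ⊆ W := fun a ha => by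
          by_cases hab : a = b
          · rw [hab]; exact hbW
          · exact hW.subset (Finset.mem_erase.2 ⟨hab, ha⟩)
        have := h1.le hsub
        omega
      · have e1 : W ∩ e = e.erase b := by
          ext a
          rw [Finset.mem_inter, Finset.mem_erase]
          exact ⟨fun ha => ⟨fun hab => hbW (hab ▸ ha.1), ha.2⟩,
            fun ha => ⟨hW.subset (Finset.mem_erase.2 ha), ha.2⟩⟩
        have e2 : ¬ W ⊆ e := fun hs => hW.not_subset (by
          rw [← e1]; exact Finset.subset_inter (Finset.Subset.refl _) hs)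
        have := h1.inter_lt e2
        rwa [e1] at this
    obtain ⟨e', he', hs, hb'⟩ := exists_edge hb h3
    by_cases hee : e' = e
    · exact hee ▸ he'
    · exfalso
      have h4 : e'.card < e.card := Finset.card_lt_card (Finset.ssubset_iff_subset_ne.2 ⟨hs, hee⟩)
      refine not_cl_erase he' hb' ((hcl _ ((Finset.erase_subset _ _).trans hs)).2 ?_)
      rw [Finset.card_erase_add_one hb']; omega

end Pool.Agent.Lib.MP_94c136_al.RZ
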