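import Pool.Agent.Lib.MP_94c136_al.Defs

/-!
Coloured hypergraphs with a predimension: definitions.
-/

set_option autoImplicit false
set_option linter.unusedSectionVars false

namespace Pool.Agent.Lib.MP_94c136_al.RZ

open scoped Pointwise

section Calculus
variable {M : Type*} [DecidableEq M]

open Classical in
/-- number of edges inside `Y` -/
noncomputable def cnt (E : Set (Finset M)) (Y : Finset M) : ℕ :=
  (Y.powerset.filter fun e => e ∈ E).card

/-- predimension: points minus edges -/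
noncomputable def del (E : Set (Finset M)) (Y : Finset M) : ℤ := (Y.card : ℤ) - cnt E Y

/-- closed finite sets -/
def Cl (E : Set (Finset M)) (A : Finset M) : Prop := ∀ W, A ⊂ W → del E A < del E W

/-- no edge inside the union crosses between `S` and `T` -/
def Fr (E : Set (Finset M)) (S T : Finset M) : Prop := ∀ e ∈ E, e ⊆ S ∪ T → e ⊆ S ∨ e ⊆ T

/-- the size of a set is bounded by its predimension -/
def Bd (E : Set (Finset M)) : Prop := ∀ Y : Finset M, Y.card < 2 ^ (del E Y).toNat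

/-- `P` is the closure of `A` -/
structure IsCl (E : Set (Finset M)) (A P : Finset M) : Prop where
  sub : A ⊆ P
  cl : Cl E P
  min : ∀ W, A ⊆ W → del E P ≤ del E W
  least : ∀ C, Cl E C → A ⊆ C → P ⊆ C

open Classical in
/-- the closure -/
noncomputable def clo (E : Set (Finset M)) (A : Finset M) : Finset M :=
  if h : ∃ P, IsCl E A P then h.choose else A

/-- the edges inside `B` -/
def res (E : Set (Finset M)) (B : Finset M) : Set (Finset M) := {e | e ∈ E ∧ e ⊆ B}

/-- the image of the edge set under a permutation -/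
def tr (g : Equiv.Perm M) (E : Set (Finset M)) : Set (Finset M) := {e | g⁻¹ • e ∈ E}

theorem smul_mem_tr (g : Equiv.Perm M) (E : Set (Finset M)) (e : Finset M) :
    g • e ∈ tr g E ↔ e ∈ E := by
  simp [tr]

/-- permutations that preserve the edges -/
def IsAut (E : Set (Finset M)) (g : Equiv.Perm M) : Prop := ∀ e : Finset M, g • e ∈ E ↔ e ∈ E

theorem IsAut.mul {E : Set (Finset M)} {g h : Equiv.Perm M} (hg : IsAut E g) (hh : IsAut E h) :
    IsAut E (g * h) := fun e => by rw [mul_smul, hg, hh]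

theorem IsAut.inv {E : Set (Finset M)} {g : Equiv.Perm M} (hg : IsAut E g) : IsAut E g⁻¹ :=
  fun e => by rw [← hg, smul_inv_smul]

theorem mem_smul_iff {g : Equiv.Perm M} {Y : Finset M} {m : M} : m ∈ g • Y ↔ ∃ y ∈ Y, g y = m :=
  Finset.mem_smul_finset

theorem app_mem_smul {g : Equiv.Perm M} {Y : Finset M} {m : M} : g m ∈ g • Y ↔ m ∈ Y :=
  Finset.smul_mem_smul_finset_iff g

theorem smul_congr {g h : Equiv.Perm M} {Y : Finset M} (e : ∀ y ∈ Y, g y = h y) :
    g • Y = h • Y :=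
  Finset.image_congr fun y hy => e y hy

theorem smul_eq_self {g : Equiv.Perm M} {Y : Finset M} (e : ∀ y ∈ Y, g y = y) : g • Y = Y := by
  rw [smul_congr (h := 1) e, one_smul]

end Calculus

variable {X : Type*} [DecidableEq X]

/-- `g` permutes the sorts as `lam` does -/
def Tw (lam : Equiv.Perm X) (g : Equiv.Perm (X × ℕ)) : Prop := ∀ m, (g m).1 = lam m.1

theorem Tw.mul {l l' : Equiv.Perm X} {g h : Equiv.Perm (X × ℕ)} (hg : Tw l g) (hh : Tw l' h) :
    Tw (l * l') (g * h) := fun m => by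
  rw [Equiv.Perm.mul_apply, hg, hh, Equiv.Perm.mul_apply]

theorem Tw.inv {l : Equiv.Perm X} {g : Equiv.Perm (X × ℕ)} (hg : Tw l g) : Tw l⁻¹ g⁻¹ := fun m => by
  have := hg (g⁻¹ m)
  rw [Equiv.Perm.eq_inv_iff_eq, ← this]
  simp

/-- `lam` preserves the arity function -/
def Pres (n : X → X → ℕ) (lam : Equiv.Perm X) : Prop :=
  ∀ x y, x ≠ y → n (lam x) (lam y) = n x y

theorem Pres.one (n : X → X → ℕ) : Pres n 1 := fun _ _ _ => rfl

theorem Pres.inv {n : X → X → ℕ} {l : Equiv.Perm X} (h : Pres n l) : Pres n l⁻¹ := fun x y hxy => by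
  have := h (l⁻¹ x) (l⁻¹ y) (fun e => hxy (l⁻¹.injective e))
  simpa using this.symm

/-- allowed colour patterns: `n x y` points of sort `x` and one point of sort `y` -/
def Pat (n : X → X → ℕ) (e : Finset (X × ℕ)) : Prop :=
  ∃ x, ∃ b ∈ e, x ≠ b.1 ∧ (∀ a ∈ e, a ≠ b → a.1 = x) ∧ e.card = n x b.1 + 1

/-- the amalgamation class -/
structure Good (n : X → X → ℕ) (E : Set (Finset (X × ℕ))) : Prop where
  pat : ∀ e ∈ E, Pat n e
  bd : Bd E
  sm : ∀ e ∈ E, ∀ Y, Y ⊆ e → Y.card + 1 ≠ e.card → Cl E Y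

/-- the extension property -/
def EP (n : X → X → ℕ) (E : Set (Finset (X × ℕ))) : Prop :=
  ∀ (A B : Finset (X × ℕ)) (E' : Set (Finset (X × ℕ))), A ⊆ B → Good n E' → (∀ e ∈ E', e ⊆ B) →
    Cl E' A → Cl E A → (∀ e, e ⊆ A → (e ∈ E' ↔ e ∈ E)) →
    ∃ f : Equiv.Perm (X × ℕ), Tw 1 f ∧ (∀ a ∈ A, f a = a) ∧ Cl E (f • B) ∧
      ∀ e, e ⊆ B → (e ∈ E' ↔ f • e ∈ E)

/-- the generic structure -/
structure Gen (n : X → X → ℕ) (E : Set (Finset (X × ℕ))) : Prop where
  two : ∀ x y, 2 ≤ n x y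
  good : Good n E
  ep : EP n E

/-- the automorphism group of the coloured hypergraph -/
def grp (E : Set (Finset (X × ℕ))) : Subgroup (Equiv.Perm (X × ℕ)) where
  carrier := {g | Tw 1 g ∧ IsAut E g}
  one_mem' := ⟨fun _ => rfl, fun e => by rw [one_smul]⟩
  mul_mem' := fun ha hb => ⟨by simpa using ha.1.mul hb.1, ha.2.mul hb.2⟩
  inv_mem' := fun ha => ⟨by simpa using ha.1.inv, ha.2.inv⟩

theorem mem_grp {E : Set (Finset (X × ℕ))} {g : Equiv.Perm (X × ℕ)} :
    g ∈ grp E ↔ Tw 1 g ∧ IsAut E g := Iff.rfl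

/-- pointwise stabilisers -/
def Fix (E : Set (Finset (X × ℕ))) (A : Finset (X × ℕ)) : Subgroup (grp E) where
  carrier := {g | ∀ a ∈ A, g.1 a = a}
  one_mem' := fun _ _ => rfl
  mul_mem' := fun {g h} hg hh a ha => by
    change g.1 (h.1 a) = a
    rw [hh a ha, hg a ha]
  inv_mem' := fun {g} hg a ha => by
    change g.1⁻¹ a = a
    rw [Equiv.Perm.inv_eq_iff_eq, hg a ha]

theorem mem_Fix {E : Set (Finset (X × ℕ))} {A : Finset (X × ℕ)} {g : grp E} :
    g ∈ Fix E A ↔ ∀ a ∈ A, g.1 a = a := Iff.rfl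

/-- open subgroups -/
def Opn (E : Set (Finset (X × ℕ))) (V : Subgroup (grp E)) : Prop := ∃ F, Fix E F ≤ V

/-- the orbit of `b` under the pointwise stabiliser of `A` -/
def orb (E : Set (Finset (X × ℕ))) (A : Finset (X × ℕ)) (b : X × ℕ) : Set (X × ℕ) :=
  {m | ∃ g ∈ Fix E A, g.1 b = m}

theorem pair_eq {E : Set (Finset (X × ℕ))} (g : grp E) (x : X) (i : ℕ) :
    g.1 (x, i) = (x, (g.1 (x, i)).2) :=
  Prod.ext (g.2.1 (x, i)) rfl

/-- restriction to the sort `x0` -/
def rs (E : Set (Finset (X × ℕ))) (x0 : X) : grp E →* SInf where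
  toFun g := (⟨fun i => (g.1 (x0, i)).2, fun i => ((g⁻¹).1 (x0, i)).2,
    fun i => by
      change ((g⁻¹).1 (x0, (g.1 (x0, i)).2)).2 = i
      rw [← pair_eq g]; simp,
    fun i => by
      change (g.1 (x0, ((g⁻¹).1 (x0, i)).2)).2 = i
      rw [← pair_eq g⁻¹]; simp⟩ : Equiv.Perm ℕ)
  map_one' := Equiv.ext fun _ => rfl
  map_mul' g h := Equiv.ext fun i => by
    change (g.1 (h.1 (x0, i))).2 = (g.1 (x0, (h.1 (x0, i)).2)).2
    rw [← pair_eq h]

theorem app_rs (E : Set (Finset (X × ℕ))) (x0 : X) (g : grp E) (i : ℕ) :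
    SInf.app (rs E x0 g) i = (g.1 (x0, i)).2 := rfl

/-- the oligomorphic group -/
def GG (E : Set (Finset (X × ℕ))) (x0 : X) : Subgroup SInf := (rs E x0).range

/-- the arity function is proper -/
def Proper (n : X → X → ℕ) : Prop := ∀ x N, {y | n x y ≤ N ∨ n y x ≤ N}.Finite

/-- a topological group given as the full group of symmetries of the arity function -/
structure Rep (L : Type*) [Group L] [TopologicalSpace L] (n : X → X → ℕ)
    (ρ : L →* Equiv.Perm X) : Prop where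
  inj : Function.Injective ρ
  pres : ∀ l, Pres n (ρ l)
  full : ∀ lam, Pres n lam → ∃ l, ρ l = lam
  opn : ∀ x, IsOpen {l | ρ l x = x}
  basis : ∀ U ∈ nhds (1 : L), ∃ F : Finset X, ∀ l, (∀ x ∈ F, ρ l x = x) → l ∈ U

end Pool.Agent.Lib.MP_94c136_al.RZ
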