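import Pool.Agent.Lib.MP_94c136_al.RZ.Amal

/-!
The generic structure exists.
-/

set_option autoImplicit false
set_option linter.unusedSectionVars false

namespace Pool.Agent.Lib.MP_94c136_al.RZ

open scoped Pointwise

variable {X : Type*} [DecidableEq X]

namespace Lim

/-- finite members of the class -/
structure St (n : X → X → ℕ) where
  D : Finset (X × ℕ)
  E : Set (Finset (X × ℕ))
  good : Good n E
  ins : ∀ e ∈ E, e ⊆ D

variable {n : X → X → ℕ}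

instance : Preorder (St n) where
  le p q := p.D ⊆ q.D ∧ (∀ e, e ⊆ p.D → (e ∈ p.E ↔ e ∈ q.E)) ∧ Cl q.E p.D
  le_refl p := ⟨subset_rfl, fun _ _ => Iff.rfl, cl_of_inside p.ins⟩
  le_trans p q r h1 h2 := ⟨h1.1.trans h2.1,
    fun e he => (h1.2.1 e he).trans (h2.2.1 e (he.trans h1.1)),
    Cl.of_agree h2.2.2 h1.1 h2.2.1 h1.2.2⟩

theorem le_def {p q : St n} :
    p ≤ q ↔ p.D ⊆ q.D ∧ (∀ e, e ⊆ p.D → (e ∈ p.E ↔ e ∈ q.E)) ∧ Cl q.E p.D := Iff.rfl

/-- the extension task given by `A`, `B`, `E'` is solved in `p` -/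
def Task (A B : Finset (X × ℕ)) (E' : Set (Finset (X × ℕ))) (p : St n) : Prop :=
  A ⊆ p.D ∧ (A ⊆ B → Good n E' → (∀ e ∈ E', e ⊆ B) → Cl E' A → Cl p.E A →
    (∀ e, e ⊆ A → (e ∈ E' ↔ e ∈ p.E)) →
    ∃ f : Equiv.Perm (X × ℕ), Tw 1 f ∧ (∀ a ∈ A, f a = a) ∧ f • B ⊆ p.D ∧ Cl p.E (f • B) ∧
      ∀ e, e ⊆ B → (e ∈ E' ↔ f • e ∈ p.E))

theorem cofinal (A B : Finset (X × ℕ)) (E' : Set (Finset (X × ℕ))) (p : St n) :
    ∃ q, Task A B E' q ∧ p ≤ q := by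
  let p1 : St n := ⟨p.D ∪ A, p.E, p.good, fun e he => (p.ins e he).trans Finset.subset_union_left⟩
  have h1 : p ≤ p1 := ⟨Finset.subset_union_left, fun _ _ => Iff.rfl, cl_of_inside p.ins⟩
  have hA : A ⊆ p1.D := Finset.subset_union_right
  by_cases h : A ⊆ B ∧ Good n E' ∧ (∀ e ∈ E', e ⊆ B) ∧ Cl E' A ∧ Cl p1.E A ∧
      ∀ e, e ⊆ A → (e ∈ E' ↔ e ∈ p1.E)
  swap
  · exact ⟨p1, ⟨hA, fun a b c d e f => absurd ⟨a, b, c, d, e, f⟩ h⟩, h1⟩
  obtain ⟨hAB, hg, hin, c1, c2, hag⟩ := h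
  obtain ⟨ψ, hψ, hfix, hD⟩ := exists_move hAB hA
  have i2 : ∀ e ∈ tr ψ E', e ⊆ ψ • B := fun e he => by
    have h2 : ψ⁻¹ • e ⊆ B := hin _ he
    have h3 := Finset.smul_finset_subset_smul_finset (a := ψ) h2
    rwa [smul_inv_smul] at h3
  obtain ⟨g, d1, d2, a1, a2⟩ := amal p1.good (hg.tr (Pres.one n) hψ) p1.ins i2
    (fun e he => by
      rw [hD] at he
      rw [← hag e he, ← smul_mem_tr ψ E' e, smul_eq_self fun y hy => hfix y (he hy)])
    (by rw [hD]; exact c2)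
    (by
      have h2 := c1.tr ψ
      rw [smul_eq_self hfix] at h2
      rw [hD]; exact h2)
  let q : St n := ⟨p1.D ∪ ψ • B, p1.E ∪ tr ψ E', g, fun e he => he.elim
    (fun h => (p1.ins e h).trans Finset.subset_union_left)
    fun h => (i2 e h).trans Finset.subset_union_right⟩
  have h2 : p1 ≤ q := ⟨Finset.subset_union_left, fun e he => (a1 e he).symm, d1⟩
  refine ⟨q, ⟨hA.trans h2.1, fun _ _ _ _ _ _ => ⟨ψ, hψ, hfix, Finset.subset_union_right, d2,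
    fun e he => ?_⟩⟩, h1.trans h2⟩
  exact (smul_mem_tr ψ E' e).symm.trans
    (a2 _ (Finset.smul_finset_subset_smul_finset he)).symm

theorem exists_ideal [Countable X] (n : X → X → ℕ) : ∃ I : Order.Ideal (St n),
    ∀ (A B : Finset (X × ℕ)) (S : Finset (Finset (X × ℕ))), ∃ p ∈ I,
      Task A B (S : Set (Finset (X × ℕ))) p := by
  have := Encodable.ofCountable (Finset (X × ℕ) × Finset (X × ℕ) × Finset (Finset (X × ℕ)))
  let C : Finset (X × ℕ) × Finset (X × ℕ) × Finset (Finset (X × ℕ)) → Order.Cofinal (St n) :=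
    fun t => ⟨{p | Task t.1 t.2.1 (t.2.2 : Set (Finset (X × ℕ))) p},
      fun p => cofinal t.1 t.2.1 (t.2.2 : Set (Finset (X × ℕ))) p⟩
  refine ⟨Order.idealOfCofinals ⟨∅, ∅, good_empty n, fun _ h => h.elim⟩ C, fun A B S => ?_⟩
  obtain ⟨p, h1, h2⟩ := Order.cofinal_meets_idealOfCofinals
    (⟨∅, ∅, good_empty n, fun _ h => h.elim⟩ : St n) C (A, B, S)
  exact ⟨p, h2, h1⟩

end Lim

theorem exists_gen [Countable X] (n : X → X → ℕ) (h2 : ∀ x y, 2 ≤ n x y) :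
    ∃ E : Set (Finset (X × ℕ)), Gen n E := by
  classical
  obtain ⟨I, hI⟩ := Lim.exists_ideal n
  let E : Set (Finset (X × ℕ)) := {e | ∃ p ∈ I, e ∈ p.E}
  have ag : ∀ p ∈ I, ∀ e, e ⊆ p.D → (e ∈ p.E ↔ e ∈ E) := by
    intro p hp e he
    refine ⟨fun h => ⟨p, hp, h⟩, ?_⟩
    rintro ⟨q, hq, h⟩
    obtain ⟨r, -, h1, h3⟩ := I.directed p hp q hq
    exact (h1.2.1 e he).2 ((h3.2.1 e (q.ins e h)).1 h)
  have ex : ∀ p ∈ I, ∀ W, ∃ r ∈ I, p ≤ r ∧ W ⊆ r.D := by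
    intro p hp W
    obtain ⟨q, hq, h⟩ := hI W W ∅
    obtain ⟨r, hr, h1, h3⟩ := I.directed p hp q hq
    exact ⟨r, hr, h1, h.1.trans h3.1⟩
  have cl : ∀ p ∈ I, Cl E p.D := by
    intro p hp W hW
    obtain ⟨r, hr, h1, h3⟩ := ex p hp W
    rw [← del_congr fun e he => ag r hr e (he.trans h3),
      ← del_congr fun e he => ag r hr e (he.trans h1.1)]
    exact h1.2.2 W hW
  refine ⟨E, h2, ⟨?_, fun Y => ?_, ?_⟩, ?_⟩
  · rintro e ⟨p, -, h⟩
    exact p.good.pat e h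
  · obtain ⟨r, hr, h⟩ := hI Y Y ∅
    rw [← del_congr fun e he => ag r hr e (he.trans h.1)]
    exact r.good.bd Y
  · rintro e ⟨p, hp, h⟩ Y hY hc
    exact Cl.of_agree (cl p hp) (hY.trans (p.ins e h)) (ag p hp) (p.good.sm e h Y hY hc)
  · intro A B E' hAB hg hin c1 c2 hag
    have hS : ((B.powerset.filter fun e => e ∈ E' : Finset _) : Set (Finset (X × ℕ))) = E' := by
      ext e
      simp only [Finset.coe_filter, Finset.mem_powerset, Set.mem_ofPred_eq]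
      exact ⟨fun h => h.2, fun h => ⟨hin e h, h⟩⟩
    obtain ⟨p, hp, hA, h⟩ := hI A B (B.powerset.filter fun e => e ∈ E')
    rw [hS] at h
    obtain ⟨f, f1, f2, f3, f4, f5⟩ := h hAB hg hin c1
      (c2.anti (fun e he => ⟨p, hp, he⟩) fun e he h => (ag p hp e (he.trans hA)).2 h)
      fun e he => (hag e he).trans (ag p hp e (he.trans hA)).symm
    exact ⟨f, f1, f2, Cl.of_agree (cl p hp) f3 (ag p hp) f4, fun e he => (f5 e he).trans
      (ag p hp _ ((Finset.smul_finset_subset_smul_finset he).trans f3))⟩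

end Pool.Agent.Lib.MP_94c136_al.RZ
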