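import Pool.Agent.Lib.MP_94c136_al.RZ.Base

/-!
A second countable totally disconnected locally compact group is the symmetry group of a proper
arity function.
-/

set_option autoImplicit false
set_option linter.unusedSectionVars false

namespace Pool.Agent.Lib.MP_94c136_al.RZ

open scoped Pointwise

universe u

/-- van Dantzig: compact open subgroups inside every neighbourhood of the identity -/
theorem van_dantzig (L : Type u) [Group L] [TopologicalSpace L] [IsTopologicalGroup L]
    [LocallyCompactSpace L] [TotallyDisconnectedSpace L] {U : Set L} (hU : U ∈ nhds (1 : L)) :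
    ∃ K : Subgroup L, IsOpen (K : Set L) ∧ IsCompact (K : Set L) ∧ (K : Set L) ⊆ U := by
  obtain ⟨C, hC, hCU, hCc⟩ := local_compact_nhds hU
  obtain ⟨W, hW, h1, hWC⟩ := loc_compact_Haus_tot_disc_of_zero_dim.mem_nhds_iff.mp hC
  have hWc : IsCompact W := hCc.of_isClosed_subset hW.1 hWC
  obtain ⟨s, v, -, hv, hs, h1v, hsv⟩ := generalized_tube_lemma hWc
    (isCompact_singleton (x := (1 : L))) (hW.2.preimage continuous_mul) (by
      rintro ⟨w, g⟩ ⟨hw, hg⟩
      have e : g = 1 := hg
      simpa [e] using hw)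
  let K : Subgroup L :=
    { carrier := {g | ∀ w, w ∈ W ↔ w * g ∈ W}
      one_mem' := fun w => by rw [mul_one]
      mul_mem' := fun {g h} hg hh w => by rw [← mul_assoc, ← hh, ← hg]
      inv_mem' := fun {g} hg w => by rw [hg (w * g⁻¹), inv_mul_cancel_right] }
  have hv1 : v ∈ nhds (1 : L) := hv.mem_nhds (h1v rfl)
  have hK : IsOpen (K : Set L) := by
    refine K.isOpen_of_mem_nhds (g := 1)
      (Filter.mem_of_superset (Filter.inter_mem hv1 (inv_mem_nhds_one L hv1)) ?_)
    rintro g ⟨hg, hg'⟩ w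
    refine ⟨fun hw => hsv (Set.mk_mem_prod (hs hw) hg), fun hw => ?_⟩
    have : w * g * g⁻¹ ∈ W := hsv (Set.mk_mem_prod (hs hw) hg')
    rwa [mul_inv_cancel_right] at this
  have hKW : (K : Set L) ⊆ W := fun g hg => by simpa using (hg 1).mp h1
  exact ⟨K, hK, hWc.of_isClosed_subset (K.isClosed_of_isOpen hK) hKW,
    hKW.trans (hWC.trans hCU)⟩

theorem exists_basis (L : Type u) [Group L] [TopologicalSpace L] [IsTopologicalGroup L]
    [SecondCountableTopology L] [LocallyCompactSpace L] [TotallyDisconnectedSpace L] :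
    ∃ K : ℕ → Subgroup L, Antitone K ∧ (∀ i, IsOpen (K i : Set L)) ∧
      (∀ i, IsCompact (K i : Set L)) ∧ ∀ U ∈ nhds (1 : L), ∃ i, (K i : Set L) ⊆ U := by
  obtain ⟨V, hV⟩ := (nhds (1 : L)).exists_antitone_basis
  choose J hJo hJc hJV using fun i => van_dantzig L (hV.mem i)
  obtain ⟨K, hK0, hKs⟩ : ∃ K : ℕ → Subgroup L, K 0 = J 0 ∧ ∀ i, K (i + 1) = K i ⊓ J (i + 1) :=
    ⟨fun i => Nat.rec (J 0) (fun j A => A ⊓ J (j + 1)) i, rfl, fun _ => rfl⟩
  have hKJ : ∀ i, K i ≤ J i := by
    intro i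
    cases i with
    | zero => exact hK0.le
    | succ i => exact (hKs i).le.trans inf_le_right
  have hKo : ∀ i, IsOpen ((K i : Subgroup L) : Set L) := by
    intro i
    induction i with
    | zero => exact hK0 ▸ hJo 0
    | succ i ih =>
      rw [hKs, Subgroup.coe_inf]
      exact ih.inter (hJo _)
  refine ⟨K, antitone_nat_of_succ_le fun i => (hKs i).le.trans inf_le_left, hKo,
    fun i => (hJc i).of_isClosed_subset ((K i).isClosed_of_isOpen (hKo i)) (hKJ i), fun U hU => ?_⟩
  obtain ⟨i, hi⟩ := hV.mem_iff.mp hU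
  exact ⟨i, fun g hg => hi (hJV i (hKJ i hg))⟩

section Action

variable {L : Type u} [Group L] [TopologicalSpace L] [IsTopologicalGroup L] {X : Type u}
  [MulAction L X]

theorem isOpen_trans (hop : ∀ y : X, IsOpen {l : L | l • y = y}) (y z : X) :
    IsOpen {l : L | l • y = z} := by
  rcases Set.eq_empty_or_nonempty {l : L | l • y = z} with h | ⟨g, hg⟩
  · rw [h]
    exact isOpen_empty
  · have e : {l : L | l • y = z} = (fun l => g⁻¹ * l) ⁻¹' {l : L | l • y = y} := by
      ext l
      have hg' : g • y = z := hg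
      simp only [Set.mem_ofPred_eq, Set.mem_preimage, mul_smul, inv_smul_eq_iff, hg']
    rw [e]
    exact (hop y).preimage (continuous_const.mul continuous_id)

theorem isClosed_trans (hop : ∀ y : X, IsOpen {l : L | l • y = y}) (y z : X) :
    IsClosed {l : L | l • y = z} := by
  have e : {l : L | l • y = z}ᶜ = ⋃ w : {w : X // w ≠ z}, {l : L | l • y = w.1} := by
    ext l
    simp only [Set.mem_compl_iff, Set.mem_ofPred_eq, Set.mem_iUnion]
    exact ⟨fun h => ⟨⟨_, h⟩, rfl⟩, fun ⟨w, hw⟩ => hw ▸ w.2⟩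
  rw [← isOpen_compl_iff, e]
  exact isOpen_iUnion fun w => isOpen_trans hop y w.1

theorem isCompact_trans (hcp : ∀ y : X, IsCompact {l : L | l • y = y}) (y z : X) :
    IsCompact {l : L | l • y = z} := by
  rcases Set.eq_empty_or_nonempty {l : L | l • y = z} with h | ⟨g, hg⟩
  · rw [h]
    exact isCompact_empty
  · have hg' : g • y = z := hg
    have e : {l : L | l • y = z} = (fun l => g * l) '' {l : L | l • y = y} := by
      ext l
      constructor
      · intro hl
        have hl' : l • y = z := hl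
        refine ⟨g⁻¹ * l, ?_, by simp⟩
        change (g⁻¹ * l) • y = y
        rw [mul_smul, hl', ← hg', inv_smul_smul]
      · rintro ⟨k, hk, rfl⟩
        have hk' : k • y = y := hk
        change (g * k) • y = z
        rw [mul_smul, hk', hg']
    rw [e]
    exact (hcp y).image (continuous_const.mul continuous_id)

theorem finite_suborbit (hop : ∀ y : X, IsOpen {l : L | l • y = y})
    (hcp : ∀ y : X, IsCompact {l : L | l • y = y}) (x y : X) :
    {z : X | ∃ l : L, l • x = x ∧ l • y = z}.Finite := by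
  obtain ⟨t, ht⟩ := (hcp x).elim_finite_subcover (fun z : X => {l : L | l • y = z})
    (fun z => isOpen_trans hop y z) (fun l _ => Set.mem_iUnion.2 ⟨l • y, rfl⟩)
  refine t.finite_toSet.subset ?_
  rintro z ⟨l, h1, rfl⟩
  obtain ⟨w, hw, h2⟩ := Set.mem_iUnion₂.1 (ht h1)
  have h3 : l • y = w := h2
  rw [h3]
  exact hw

theorem rep_of_action [T1Space L] [Countable X] (x : ℕ → X) (c : X → ℕ) (hc : ∀ i, c (x i) = i)
    (hop : ∀ y : X, IsOpen {l : L | l • y = y}) (hcp : ∀ y : X, IsCompact {l : L | l • y = y})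
    (hanti : ∀ i j, i ≤ j → ∀ l : L, l • x j = x j → l • x i = x i)
    (hb : ∀ U ∈ nhds (1 : L), ∃ i, ∀ l : L, l • x i = x i → l ∈ U) :
    ∃ n : X → X → ℕ, (∀ x y, 2 ≤ n x y) ∧ Proper n ∧ Rep L n (MulAction.toPermHom L X) := by
  obtain ⟨enc, henc⟩ := exists_injective_nat (MulAction.orbitRel.Quotient L (X × X))
  let n : X → X → ℕ := fun a b => 2 + enc (Quotient.mk'' (a, b))
  have key : ∀ a b a' b', n a' b' = n a b ↔ ∃ l : L, l • a = a' ∧ l • b = b' := by
    intro a b a' b'
    constructor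
    · intro h
      have h1 : enc (Quotient.mk'' (a', b')) = enc (Quotient.mk'' (a, b)) := Nat.add_left_cancel h
      obtain ⟨l, hl⟩ := MulAction.orbitRel_apply.1 (Quotient.exact' (henc h1))
      exact ⟨l, congrArg Prod.fst hl, congrArg Prod.snd hl⟩
    · rintro ⟨l, rfl, rfl⟩
      have h1 : (Quotient.mk'' (l • a, l • b) : MulAction.orbitRel.Quotient L (X × X)) =
          Quotient.mk'' (a, b) := Quotient.sound' (MulAction.orbitRel_apply.2 ⟨l, rfl⟩)
      change 2 + enc _ = 2 + enc _
      rw [h1]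
  have hne : ∀ i y, c y < i → x i ≠ y := by
    rintro i y h rfl
    rw [hc] at h
    exact lt_irrefl _ h
  have hst : ∀ (y z : X) (l l' : L), l • y = z → l' • y = z → (l'⁻¹ * l) • y = y := by
    intro y z l l' h1 h2
    rw [mul_smul, h1, ← h2, inv_smul_smul]
  have hts : ∀ (y : X) (l l' : L), (l'⁻¹ * l) • y = y → l • y = l' • y := by
    intro y l l' h
    rwa [mul_smul, inv_smul_eq_iff] at h
  refine ⟨n, fun a b => Nat.le_add_right _ _, ?_, ?_, ?_, ?_, hop, ?_⟩
  · intro a N
    have f1 : ∀ k, {y | n a y = k}.Finite := by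
      intro k
      rcases Set.eq_empty_or_nonempty {y | n a y = k} with h | ⟨y, hy⟩
      · rw [h]
        exact Set.finite_empty
      · have hy' : n a y = k := hy
        refine (finite_suborbit hop hcp a y).subset fun z hz => ?_
        have hz' : n a z = k := hz
        exact (key a y a z).1 (hz'.trans hy'.symm)
    have f2 : ∀ k, {y | n y a = k}.Finite := by
      intro k
      rcases Set.eq_empty_or_nonempty {y | n y a = k} with h | ⟨y, hy⟩
      · rw [h]
        exact Set.finite_empty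
      · have hy' : n y a = k := hy
        refine (finite_suborbit hop hcp a y).subset fun z hz => ?_
        have hz' : n z a = k := hz
        obtain ⟨l, h1, h2⟩ := (key y a z a).1 (hz'.trans hy'.symm)
        exact ⟨l, h2, h1⟩
    refine ((Set.finite_Iic N).biUnion fun k _ => (f1 k).union (f2 k)).subset fun y hy => ?_
    rcases hy with h | h
    · exact Set.mem_biUnion (x := n a y) h (Or.inl rfl)
    · exact Set.mem_biUnion (x := n y a) h (Or.inr rfl)
  · rw [injective_iff_map_eq_one]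
    intro l hl
    by_contra h1
    obtain ⟨i, hi⟩ := hb {l}ᶜ (isOpen_compl_singleton.mem_nhds (Ne.symm h1))
    exact hi l (congrArg (fun g : Equiv.Perm X => g (x i)) hl) rfl
  · intro l a b _
    exact (key a b _ _).2 ⟨l, rfl, rfl⟩
  · intro lam hlam
    have pair : ∀ a b, a ≠ b → ∃ l : L, l • a = lam a ∧ l • b = lam b := fun a b hab =>
      (key a b _ _).1 (hlam a b hab)
    have hx : ∀ i, x (i + 1) ≠ x i := fun i => hne _ _ (by rw [hc]; exact Nat.lt_succ_self i)
    obtain ⟨g, hg⟩ := IsCompact.nonempty_iInter_of_sequence_nonempty_isCompact_isClosed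
      (fun i => {l : L | l • x i = lam (x i)})
      (fun i l hl => by
        obtain ⟨l', h1, h2⟩ := pair _ _ (hx i)
        exact (hts _ l l' (hanti i (i + 1) (Nat.le_succ i) _ (hst _ _ l l' hl h1))).trans h2)
      (fun i => by
        obtain ⟨l', -, h2⟩ := pair _ _ (hx i)
        exact ⟨l', h2⟩)
      (isCompact_trans hcp _ _) (fun i => isClosed_trans hop _ _)
    refine ⟨g, Equiv.ext fun y => ?_⟩
    obtain ⟨j, hj⟩ := hb {l : L | l • y = y} ((hop y).mem_nhds (one_smul L y))
    obtain ⟨l, h1, h2⟩ := pair _ _ (hne (max j (c y + 1)) y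
      (lt_of_lt_of_le (Nat.lt_succ_self _) (le_max_right _ _)))
    have h3 : g • x (max j (c y + 1)) = lam (x (max j (c y + 1))) := Set.mem_iInter.1 hg _
    exact (hts y g l (hj _ (hanti j _ (le_max_left _ _) _ (hst _ _ g l h3 h1)))).trans h2
  · intro U hU
    obtain ⟨i, hi⟩ := hb U hU
    exact ⟨{x i}, fun l hl => hi l (hl _ (Finset.mem_singleton_self _))⟩

end Action

theorem exists_rep (L : Type u) [Group L] [TopologicalSpace L] [IsTopologicalGroup L]
    [SecondCountableTopology L] [LocallyCompactSpace L] [TotallyDisconnectedSpace L] :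
    ∃ (X : Type u) (_ : Countable X) (_ : Nonempty X) (n : X → X → ℕ) (ρ : L →* Equiv.Perm X),
      (∀ x y, 2 ≤ n x y) ∧ Proper n ∧ Rep L n ρ := by
  obtain ⟨K, hanti, hop, hcp, hb⟩ := exists_basis L
  have st : ∀ (i : ℕ) (g l : L), l • (⟨i, (g : L ⧸ K i)⟩ : Σ i, L ⧸ K i) = ⟨i, (g : L ⧸ K i)⟩ ↔
      g⁻¹ * l * g ∈ K i := by
    intro i g l
    rw [Sigma.smul_mk, Sigma.mk.inj_iff, heq_eq_eq, eq_self_iff_true, true_and, eq_comm,
      MulAction.Quotient.smul_mk, QuotientGroup.eq, smul_eq_mul, mul_assoc]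
  have cnt : ∀ i, Countable (L ⧸ K i) := by
    intro i
    obtain ⟨D, hD, hd⟩ := TopologicalSpace.exists_countable_dense L
    have := hD.to_subtype
    refine Function.Surjective.countable (f := fun d : D => ((d : L) : L ⧸ K i)) fun q => ?_
    obtain ⟨g, rfl⟩ := QuotientGroup.mk_surjective q
    obtain ⟨d, h1, h2⟩ := hd.inter_open_nonempty ((fun l => g⁻¹ * l) ⁻¹' (K i : Set L))
      ((hop i).preimage (continuous_const.mul continuous_id)) ⟨g, by simp⟩
    exact ⟨⟨d, h2⟩, (QuotientGroup.eq.2 h1).symm⟩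
  have st1 : ∀ (i : ℕ) (l : L), l • (⟨i, ((1 : L) : L ⧸ K i)⟩ : Σ i, L ⧸ K i) =
      ⟨i, ((1 : L) : L ⧸ K i)⟩ ↔ l ∈ K i := by
    intro i l
    rw [st, inv_one, one_mul, mul_one]
  obtain ⟨n, h⟩ := rep_of_action (L := L) (X := Σ i, L ⧸ K i)
    (fun i => ⟨i, ((1 : L) : L ⧸ K i)⟩) Sigma.fst (fun _ => rfl)
    (by
      rintro ⟨i, q⟩
      obtain ⟨g, rfl⟩ := QuotientGroup.mk_surjective q
      have e : {l : L | l • (⟨i, (g : L ⧸ K i)⟩ : Σ i, L ⧸ K i) = ⟨i, (g : L ⧸ K i)⟩} =
          (fun l => g⁻¹ * l * g) ⁻¹' (K i : Set L) := Set.ext fun l => st i g l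
      rw [e]
      exact (hop i).preimage ((continuous_const.mul continuous_id).mul continuous_const))
    (by
      rintro ⟨i, q⟩
      obtain ⟨g, rfl⟩ := QuotientGroup.mk_surjective q
      have e : {l : L | l • (⟨i, (g : L ⧸ K i)⟩ : Σ i, L ⧸ K i) = ⟨i, (g : L ⧸ K i)⟩} =
          (fun k => g * k * g⁻¹) '' (K i : Set L) := by
        ext l
        refine (st i g l).trans ⟨fun h => ⟨_, h, by group⟩, ?_⟩
        rintro ⟨k, hk, rfl⟩
        have e2 : g⁻¹ * (g * k * g⁻¹) * g = k := by group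
        rw [e2]
        exact hk
      rw [e]
      exact (hcp i).image ((continuous_const.mul continuous_id).mul continuous_const))
    (fun i j hij l hl => (st1 i l).2 (hanti hij ((st1 j l).1 hl)))
    (fun U hU => by
      obtain ⟨i, hi⟩ := hb U hU
      exact ⟨i, fun l hl => hi ((st1 i l).1 hl)⟩)
  exact ⟨_, inferInstance, ⟨⟨0, ((1 : L) : L ⧸ K 0)⟩⟩, n, _, h⟩

end Pool.Agent.Lib.MP_94c136_al.RZ
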