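import Pool.Agent.Lib.MP_94c136_al.RZ.OutIso
import Pool.Agent.Lib.MP_94c136_al.RZ.Lim
import Pool.Agent.Lib.MP_94c136_al.RZ.Tdlc

/-!
Every second countable totally disconnected locally compact group is an outer automorphism group.
-/

set_option autoImplicit false
set_option linter.unusedSectionVars false

namespace Pool.Agent.Lib.MP_94c136_al.RZ

open scoped Pointwise

universe u

theorem main (L : Type u) [Group L] [TopologicalSpace L] [IsTopologicalGroup L]
    [SecondCountableTopology L] [LocallyCompactSpace L] [TotallyDisconnectedSpace L] :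
    ∃ G : Subgroup SInf, IsOligomorphic G ∧ Subgroup.center G = ⊥ ∧ Nonempty (Out G ≃ₜ* L) := by
  classical
  obtain ⟨X, _, ⟨x0⟩, n, ρ, h2, hp, hρ⟩ := exists_rep L
  obtain ⟨E, hE⟩ := exists_gen n h2
  exact ⟨GG E x0, ⟨hE.isClosed x0, fun k _ => hE.finite_orbits hp x0 k⟩, hE.center x0,
    hE.out_iso x0 hρ⟩

end Pool.Agent.Lib.MP_94c136_al.RZ
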