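import Pool.Agent.Lib.MP_94c136_al.RZ.Hom

/-!
Free copies, orbits and definable points.
-/

set_option autoImplicit false
set_option linter.unusedSectionVars false

namespace Pool.Agent.Lib.MP_94c136_al.RZ

open scoped Pointwise

variable {X : Type*} [DecidableEq X] [Countable X] {n : X → X → ℕ} {E : Set (Finset (X × ℕ))}

/-- a free copy of `P` over `A`, away from `F` -/
theorem Gen.free_copy (hE : Gen n E) {A P F : Finset (X × ℕ)} (hA : Cl E A) (hP : Cl E P)
    (hF : Cl E F) (hAP : A ⊆ P) (hAF : A ⊆ F) :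
    ∃ g ∈ Fix E A, F ∩ g.1 • P = A ∧ Cl E (F ∪ g.1 • P) ∧ Fr E F (g.1 • P) := by
  obtain ⟨ψ, tψ, fψ, iψ⟩ := exists_move hAP hAF
  have eA : ψ • A = A := smul_eq_self fψ
  have i1 : ∀ e ∈ res E F, e ⊆ F := fun e he => he.2
  have i2 : ∀ e ∈ tr ψ (res E P), e ⊆ ψ • P := fun e he => by
    have h2 : ψ⁻¹ • e ⊆ P := he.2
    have h3 := (Finset.smul_finset_subset_smul_finset_iff (a := ψ)).2 h2
    rwa [smul_inv_smul] at h3
  have hag : ∀ e, e ⊆ F ∩ ψ • P → (e ∈ res E F ↔ e ∈ tr ψ (res E P)) := fun e he => by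
    rw [iψ] at he
    have e1 : ψ • e = e := smul_eq_self fun y hy => fψ y (he hy)
    have e2 := smul_mem_tr ψ (res E P) e
    rw [e1] at e2
    rw [e2]
    exact ⟨fun h => ⟨h.1, he.trans hAP⟩, fun h => ⟨h.1, he.trans hAF⟩⟩
  have c1 : Cl (res E F) (F ∩ ψ • P) := by rw [iψ]; exact hA.res hAF
  have c2 : Cl (tr ψ (res E P)) (F ∩ ψ • P) := by
    rw [iψ]
    have h2 := (hA.res hAP).tr ψ
    rwa [eA] at h2
  obtain ⟨hG, cF, cP, a1, a2⟩ :=
    amal (hE.good.res F) ((hE.good.res P).tr (Pres.one n) tψ) i1 i2 hag c1 c2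
  have iB : ∀ e ∈ res E F ∪ tr ψ (res E P), e ⊆ F ∪ ψ • P := fun e he =>
    he.elim (fun h => (i1 e h).trans Finset.subset_union_left)
      fun h => (i2 e h).trans Finset.subset_union_right
  obtain ⟨f, tf, ff, cf, hf⟩ := hE.ep F (F ∪ ψ • P) _ Finset.subset_union_left hG iB cF hF
    fun e he => (a1 e he).trans ⟨fun h => h.1, fun h => ⟨h, he⟩⟩
  have eF : f • F = F := smul_eq_self ff
  have cK : Cl E ((f * ψ) • P) := by
    rw [mul_smul]
    exact Cl.of_smul cf Finset.subset_union_right hf cP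
  have tfψ : Tw 1 (f * ψ) := by simpa using tf.mul tψ
  obtain ⟨π, tπ, aπ, eπ⟩ := hE.hom (Pres.one n) tfψ hP cK fun e he => by
    have h2 : ψ • e ⊆ ψ • P := (Finset.smul_finset_subset_smul_finset_iff (a := ψ)).2 he
    rw [mul_smul, ← hf _ (h2.trans Finset.subset_union_right), a2 _ h2, smul_mem_tr]
    exact ⟨fun h => ⟨h, he⟩, fun h => h.1⟩
  have eP : π • P = f • ψ • P := by rw [smul_congr eπ, mul_smul]
  have eU : F ∪ π • P = f • (F ∪ ψ • P) := by rw [Finset.smul_finset_union, eF, eP]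
  refine ⟨⟨π, tπ, aπ⟩, fun a ha => ?_, ?_, ?_, ?_⟩
  · change π a = a
    rw [eπ a (hAP ha), Equiv.Perm.mul_apply, fψ a ha, ff a (hAF ha)]
  · change F ∩ π • P = A
    have h2 : f • (F ∩ ψ • P) = f • F ∩ f • ψ • P := Finset.smul_finset_inter
    rw [eF, iψ, smul_eq_self fun y hy => ff y (hAF hy)] at h2
    rw [eP, ← h2]
  · change Cl E (F ∪ π • P)
    rw [eU]
    exact cf
  · intro e he hs
    change e ⊆ F ∪ π • P at hs
    change e ⊆ F ∨ e ⊆ π • P
    rw [eU] at hs
    have h2 : f⁻¹ • e ⊆ F ∪ ψ • P := by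
      have h3 := (Finset.smul_finset_subset_smul_finset_iff (a := f⁻¹)).2 hs
      rwa [inv_smul_smul] at h3
    have h3 := (hf _ h2).2 (by rwa [smul_inv_smul])
    rcases h3 with h | h
    · left
      have h4 := (Finset.smul_finset_subset_smul_finset_iff (a := f)).2 (i1 _ h)
      rwa [smul_inv_smul, eF] at h4
    · right
      have h4 := (Finset.smul_finset_subset_smul_finset_iff (a := f)).2 (i2 _ h)
      rwa [smul_inv_smul, ← eP] at h4

/-- two closed free unions with conjugate second parts are conjugate over the first part -/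
theorem Gen.glue (hE : Gen n E) {S T : Finset (X × ℕ)} (u : grp E)
    (hfix : ∀ a ∈ S ∩ T, u.1 a = a) (hint : S ∩ u.1 • T = S ∩ T) (c1 : Cl E (S ∪ T))
    (f1 : Fr E S T) (c2 : Cl E (S ∪ u.1 • T)) (f2 : Fr E S (u.1 • T)) :
    ∃ w ∈ Fix E S, ∀ t ∈ T, w.1 t = u.1 t := by
  have key : ∀ a ∈ S, ∀ b ∈ T, a = u.1 b → a = b := fun a ha b hb e => by
    have h1 : a ∈ S ∩ u.1 • T := Finset.mem_inter.2 ⟨ha, by rw [e]; exact app_mem_smul.2 hb⟩
    rw [hint] at h1
    exact u.1.injective ((hfix a h1).trans e)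
  obtain ⟨ψ, tψ, eψ⟩ := exists_perm 1 (S ∪ T) (fun m => if m ∈ S then m else u.1 m)
    (fun a ha b hb e => by
      have ha := Finset.mem_union.1 (Finset.mem_coe.1 ha)
      have hb := Finset.mem_union.1 (Finset.mem_coe.1 hb)
      by_cases h1 : a ∈ S <;> by_cases h2 : b ∈ S
      · simpa [h1, h2] using e
      · exact key a h1 b (hb.resolve_left h2) (by simpa [h1, h2] using e)
      · exact (key b h2 a (ha.resolve_left h1) (by simpa [h1, h2] using e.symm)).symm
      · exact u.1.injective (by simpa [h1, h2] using e))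
    (fun a _ => by
      by_cases h1 : a ∈ S
      · simp [h1]
      · simpa [h1] using u.2.1 a)
  have eS : ∀ a ∈ S, ψ a = a := fun a ha => by
    rw [eψ a (Finset.mem_union_left _ ha), if_pos ha]
  have eT : ∀ a ∈ T, ψ a = u.1 a := fun a ha => by
    rw [eψ a (Finset.mem_union_right _ ha)]
    split_ifs with h
    · exact (hfix a (Finset.mem_inter.2 ⟨h, ha⟩)).symm
    · rfl
  have e1 : ψ • S = S := smul_eq_self eS
  have e2 : ψ • T = u.1 • T := smul_congr eT
  have e3 : ψ • (S ∪ T) = S ∪ u.1 • T := by rw [Finset.smul_finset_union, e1, e2]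
  have kS : ∀ e, e ⊆ S → (e ∈ E ↔ ψ • e ∈ E) := fun e he => by
    rw [smul_eq_self fun y hy => eS y (he hy)]
  have kT : ∀ e, e ⊆ T → (e ∈ E ↔ ψ • e ∈ E) := fun e he => by
    rw [smul_congr fun y hy => eT y (he hy), u.2.2 e]
  obtain ⟨π, tπ, aπ, eπ⟩ := hE.hom (Pres.one n) tψ c1 (by rw [e3]; exact c2) fun e he => by
    constructor
    · intro h
      exact (f1 e h he).elim (fun k => (kS e k).1 h) fun k => (kT e k).1 h
    · intro h
      have h2 : ψ • e ⊆ S ∪ u.1 • T := by
        rw [← e3]; exact (Finset.smul_finset_subset_smul_finset_iff (a := ψ)).2 he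
      rcases f2 _ h h2 with k | k
      · rw [← e1] at k
        exact (kS e ((Finset.smul_finset_subset_smul_finset_iff (a := ψ)).1 k)).2 h
      · rw [← e2] at k
        exact (kT e ((Finset.smul_finset_subset_smul_finset_iff (a := ψ)).1 k)).2 h
  exact ⟨⟨π, tπ, aπ⟩, fun a ha => (eπ a (Finset.mem_union_left _ ha)).trans (eS a ha),
    fun t ht => (eπ t (Finset.mem_union_right _ ht)).trans (eT t ht)⟩

theorem Gen.orb_infinite (hE : Gen n E) {A : Finset (X × ℕ)} (hA : Cl E A) {b : X × ℕ}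
    (hb : b ∉ A) : (orb E A b).Infinite := by
  intro hfin
  have hP := hE.good.bd.isCl (insert b A)
  have hF := hE.good.bd.isCl (A ∪ hfin.toFinset)
  obtain ⟨g, hg, h1, -, -⟩ := hE.free_copy hA hP.cl hF.cl
    ((Finset.subset_insert b A).trans hP.sub) (Finset.subset_union_left.trans hF.sub)
  have h2 : g.1 b ∈ A := by
    rw [← h1]
    exact Finset.mem_inter.2 ⟨hF.sub (Finset.mem_union_right _ (hfin.mem_toFinset.2 ⟨g, hg, rfl⟩)),
      app_mem_smul.2 (hP.sub (Finset.mem_insert_self b A))⟩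
  have h3 : g.1 b = b := g.1.injective (hg _ h2)
  exact hb (h3 ▸ h2)

theorem Gen.cl_iff (hE : Gen n E) (A : Finset (X × ℕ)) :
    Cl E A ↔ ∀ b, b ∉ A → (orb E A b).Infinite := by
  refine ⟨fun hA b hb => hE.orb_infinite hA hb, fun h => ?_⟩
  have hP := hE.good.bd.isCl A
  have e : clo E A = A := by
    refine Finset.Subset.antisymm (fun b hb => ?_) hP.sub
    by_contra hn
    refine h b hn ((clo E A).finite_toSet.subset ?_)
    rintro m ⟨g, hg, rfl⟩
    have h1 : A ⊆ g.1⁻¹ • clo E A := fun a ha =>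
      mem_smul_iff.2 ⟨a, hP.sub ha, by rw [Equiv.Perm.inv_eq_iff_eq, hg a ha]⟩
    obtain ⟨y, hy, e⟩ := mem_smul_iff.1 (hP.least _ (hP.cl.smul g.2.2.inv) h1 hb)
    rw [Equiv.Perm.inv_eq_iff_eq] at e
    rw [← e]
    exact hy
  rw [← e]
  exact hP.cl

/-- edges have at least three points -/
theorem Gen.three (hE : Gen n E) {e : Finset (X × ℕ)} (he : e ∈ E) : 3 ≤ e.card := by
  obtain ⟨x, b, -, -, -, hc⟩ := hE.good.pat e he
  have := hE.two x b.1
  omega

/-- the group is transitive on each sort -/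
theorem Gen.trans (hE : Gen n E) {m m' : X × ℕ} (h : m.1 = m'.1) : ∃ g : grp E, g.1 m = m' := by
  have htw : Tw 1 (Equiv.swap m m') := fun a => by
    rw [Equiv.Perm.one_apply, Equiv.swap_apply_def]
    split_ifs with h1 h2
    · rw [h1, h]
    · rw [h2, h]
    · rfl
  obtain ⟨π, h1, h2, h3⟩ := hE.hom (Pres.one n) htw (hE.good.bd.cl_singleton m)
    (by rw [Finset.smul_finset_singleton]; exact hE.good.bd.cl_singleton _) (fun e he => by
      have hc : e.card ≤ 1 := by simpa using Finset.card_le_card he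
      constructor
      · intro h'
        have := hE.three h'
        omega
      · intro h'
        have := hE.three h'
        rw [Finset.card_smul_finset] at this
        omega)
  exact ⟨⟨π, h1, h2⟩, by rw [h3 m (Finset.mem_singleton_self m), Equiv.swap_apply_left]⟩

/-- an edge through a given point with all other points in a given sort -/
theorem Gen.exists_edge (hE : Gen n E) (m : X × ℕ) {x : X} (hx : x ≠ m.1) :
    ∃ e ∈ E, m ∈ e ∧ (∀ a ∈ e, a ≠ m → a.1 = x) ∧ e.card = n x m.1 + 1 := by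
  let B : Finset (X × ℕ) := insert m ((Finset.range (n x m.1)).image fun i => (x, i))
  have hm : m ∉ (Finset.range (n x m.1)).image fun i => (x, i) := by
    intro h
    obtain ⟨i, -, hi⟩ := Finset.mem_image.1 h
    exact hx (by rw [← hi])
  have hcard : B.card = n x m.1 + 1 := by
    rw [Finset.card_insert_of_notMem hm, Finset.card_image_of_injective _
      (fun i j hij => (Prod.mk.inj hij).2), Finset.card_range]
  have hsort : ∀ a ∈ B, a ≠ m → a.1 = x := fun a ha hne => by
    rcases Finset.mem_insert.1 ha with h | h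
    · exact absurd h hne
    · obtain ⟨i, -, hi⟩ := Finset.mem_image.1 h
      rw [← hi]
  have hmB : m ∈ B := Finset.mem_insert_self _ _
  have h3 : 3 ≤ B.card := by
    have := hE.two x m.1
    omega
  have hg : Good n ({B} : Set (Finset (X × ℕ))) := good_single ⟨x, m, hmB, hx, hsort, hcard⟩ h3
  obtain ⟨f, f1, f2, -, f4⟩ := hE.ep {m} B {B} (Finset.singleton_subset_iff.2 hmB) hg
    (fun e he => by rw [Set.mem_singleton_iff.1 he]) (hg.bd.cl_singleton m)
    (hE.good.bd.cl_singleton m) (fun e he => by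
      have hc : e.card ≤ 1 := by simpa using Finset.card_le_card he
      constructor
      · intro h'
        rw [Set.mem_singleton_iff.1 h'] at hc
        omega
      · intro h'
        have := hE.three h'
        omega)
  have hfm : f m = m := f2 m (Finset.mem_singleton_self m)
  refine ⟨f • B, (f4 B Finset.Subset.rfl).1 rfl, mem_smul_iff.2 ⟨m, hmB, hfm⟩, fun a ha hne => ?_,
    by rw [Finset.card_smul_finset, hcard]⟩
  obtain ⟨y, hy, rfl⟩ := mem_smul_iff.1 ha
  rw [f1 y, Equiv.Perm.one_apply]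
  exact hsort y hy fun h => hne (by rw [h, hfm])

/-- every point is definable over finitely many points of any sort -/
theorem Gen.support (hE : Gen n E) (x0 : X) (m : X × ℕ) :
    ∃ Z : Finset ℕ, ∀ g : grp E, (∀ i ∈ Z, g.1 (x0, i) = (x0, i)) → g.1 m = m := by
  by_cases hx : x0 = m.1
  · refine ⟨{m.2}, fun g hg => ?_⟩
    have := hg m.2 (Finset.mem_singleton_self _)
    rwa [hx] at this
  obtain ⟨e, he, hm, hsort, -⟩ := hE.exists_edge m hx
  refine ⟨(e.erase m).image Prod.snd, fun g hg => ?_⟩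
  have hfix : ∀ a ∈ e.erase m, g.1 a = a := fun a ha => by
    have h1 := hsort a (Finset.mem_of_mem_erase ha) (Finset.ne_of_mem_erase ha)
    have h2 := hg a.2 (Finset.mem_image_of_mem _ ha)
    rwa [← h1] at h2
  by_contra hne
  have he' : g.1 • e ∈ E := (g.2.2 e).2 he
  have c1 : Cl E e := hE.good.sm e he e Finset.Subset.rfl (by omega)
  have c2 : Cl E (g.1 • e) := hE.good.sm _ he' _ Finset.Subset.rfl (by omega)
  have hint : e ∩ g.1 • e = e.erase m := by
    ext a
    rw [Finset.mem_inter, Finset.mem_erase]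
    constructor
    · rintro ⟨h1, h2⟩
      refine ⟨fun ham => ?_, h1⟩
      obtain ⟨y, hy, hya⟩ := mem_smul_iff.1 h2
      by_cases hym : y = m
      · exact hne (by rw [← hym, hya, ham, hym])
      · rw [hfix y (Finset.mem_erase.2 ⟨hym, hy⟩)] at hya
        exact hym (hya.trans ham)
    · rintro ⟨h1, h2⟩
      exact ⟨h2, mem_smul_iff.2 ⟨a, h2, hfix a (Finset.mem_erase.2 ⟨h1, h2⟩)⟩⟩
  exact not_cl_erase he hm (hint ▸ c1.inter c2)

/-- a twisted automorphism fixing a given finite set -/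
theorem Gen.twist (hE : Gen n E) (F : Finset (X × ℕ)) : ∃ C : Finset X, ∀ lam : Equiv.Perm X,
    Pres n lam → (∀ x ∈ C, lam x = x) →
    ∃ π : Equiv.Perm (X × ℕ), Tw lam π ∧ IsAut E π ∧ ∀ a ∈ F, π a = a := by
  have hc := hE.good.bd.isCl F
  refine ⟨(clo E F).image Prod.fst, fun lam hl hC => ?_⟩
  obtain ⟨ψ, h1, h2⟩ := exists_perm lam (clo E F) id (Set.injOn_id _)
    (fun a ha => (hC a.1 (Finset.mem_image_of_mem _ ha)).symm)
  obtain ⟨π, p1, p2, p3⟩ := hE.hom hl h1 hc.cl (by rw [smul_eq_self h2]; exact hc.cl)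
    (fun e he => by rw [smul_eq_self fun y hy => h2 y (he hy)])
  exact ⟨π, p1, p2, fun a ha => (p3 a (hc.sub ha)).trans (h2 a (hc.sub ha))⟩

theorem Gen.exists_twist (hE : Gen n E) {lam : Equiv.Perm X} (hl : Pres n lam) :
    ∃ π : Equiv.Perm (X × ℕ), Tw lam π ∧ IsAut E π := by
  obtain ⟨ψ, h1, -⟩ := exists_perm lam ∅ id (Set.injOn_id _) (fun a ha => absurd ha (by simp))
  obtain ⟨π, p1, p2, -⟩ := hE.hom hl h1 hE.good.bd.cl_empty
    (by rw [Finset.smul_finset_empty]; exact hE.good.bd.cl_empty)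
    (fun e he => by rw [Finset.subset_empty.1 he, Finset.smul_finset_empty])
  exact ⟨π, p1, p2⟩

end Pool.Agent.Lib.MP_94c136_al.RZ
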