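import Pool.Agent.Lib.MP_94c136_al.RZ.Amal

/-!
Homogeneity of the generic structure, with a twist of the sorts.
-/

set_option autoImplicit false
set_option linter.unusedSectionVars false

namespace Pool.Agent.Lib.MP_94c136_al.RZ

open scoped Pointwise

variable {X : Type*} [DecidableEq X] [Countable X] {n : X → X → ℕ} {E : Set (Finset (X × ℕ))}

/-- finite twisted isomorphisms between closed sets -/
structure HomPI (E : Set (Finset (X × ℕ))) (lam : Equiv.Perm X) (ψ : Equiv.Perm (X × ℕ))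
    (A : Finset (X × ℕ)) : Prop where
  tw : Tw lam ψ
  cl : Cl E A
  cl' : Cl E (ψ • A)
  ed : ∀ e, e ⊆ A → (e ∈ E ↔ ψ • e ∈ E)

theorem HomPI.symm {lam : Equiv.Perm X} {ψ : Equiv.Perm (X × ℕ)} {A : Finset (X × ℕ)}
    (h : HomPI E lam ψ A) : HomPI E lam⁻¹ ψ⁻¹ (ψ • A) := by
  refine ⟨h.tw.inv, h.cl', by rw [inv_smul_smul]; exact h.cl, fun e he => ?_⟩
  have h1 : ψ⁻¹ • e ⊆ A := by
    rw [← inv_smul_smul ψ A]
    exact Finset.smul_finset_subset_smul_finset he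
  rw [h.ed _ h1, smul_inv_smul]

theorem Gen.hom_forth (hE : Gen n E) {lam : Equiv.Perm X} (hl : Pres n lam)
    {ψ : Equiv.Perm (X × ℕ)} {A : Finset (X × ℕ)} (h : HomPI E lam ψ A) (m : X × ℕ) :
    ∃ (χ : Equiv.Perm (X × ℕ)) (B : Finset (X × ℕ)),
      HomPI E lam χ B ∧ A ⊆ B ∧ m ∈ B ∧ ∀ a ∈ A, χ a = ψ a := by
  have hB := hE.good.bd.isCl (insert m A)
  generalize clo E (insert m A) = B at hB
  have hAB : A ⊆ B := (Finset.subset_insert m A).trans hB.sub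
  have hin : ∀ e ∈ tr ψ (res E B), e ⊆ ψ • B := by
    intro e he
    have h1 : ψ⁻¹ • e ⊆ B := he.2
    rw [← smul_inv_smul ψ e]
    exact Finset.smul_finset_subset_smul_finset h1
  have hag : ∀ e, e ⊆ ψ • A → (e ∈ tr ψ (res E B) ↔ e ∈ E) := by
    intro e he
    have h1 : ψ⁻¹ • e ⊆ A := by
      rw [← inv_smul_smul ψ A]
      exact Finset.smul_finset_subset_smul_finset he
    rw [h.symm.ed e he]
    exact ⟨fun h2 => h2.1, fun h2 => ⟨h2, h1.trans hAB⟩⟩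
  obtain ⟨f, hf, hfa, hfc, hfe⟩ := hE.ep (ψ • A) (ψ • B) (tr ψ (res E B))
    (Finset.smul_finset_subset_smul_finset hAB) ((hE.good.res B).tr hl h.tw) hin
    ((h.cl.res hAB).tr ψ) h.cl' hag
  refine ⟨f * ψ, B, ⟨by simpa using hf.mul h.tw, hB.cl, by rw [mul_smul]; exact hfc,
    fun e he => ?_⟩, hAB, hB.sub (Finset.mem_insert_self m A), fun a ha => ?_⟩
  · rw [mul_smul, ← hfe _ (Finset.smul_finset_subset_smul_finset he), smul_mem_tr]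
    exact ⟨fun h2 => ⟨h2, he⟩, fun h2 => h2.1⟩
  · rw [Equiv.Perm.mul_apply, hfa _ (app_mem_smul.2 ha)]

theorem Gen.hom_back (hE : Gen n E) {lam : Equiv.Perm X} (hl : Pres n lam)
    {ψ : Equiv.Perm (X × ℕ)} {A : Finset (X × ℕ)} (h : HomPI E lam ψ A) (m : X × ℕ) :
    ∃ (χ : Equiv.Perm (X × ℕ)) (B : Finset (X × ℕ)),
      HomPI E lam χ B ∧ A ⊆ B ∧ m ∈ χ • B ∧ ∀ a ∈ A, χ a = ψ a := by
  obtain ⟨χ, C, hC, hAC, hm, hχ⟩ := hE.hom_forth hl.inv h.symm m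
  have hχ' : ∀ a ∈ A, χ (ψ a) = a := fun a ha => by
    rw [hχ _ (app_mem_smul.2 ha)]
    exact ψ.symm_apply_apply a
  have hs := hC.symm
  rw [inv_inv] at hs
  refine ⟨χ⁻¹, χ • C, hs, fun a ha => ?_, by rw [inv_smul_smul]; exact hm, fun a ha => ?_⟩
  · exact mem_smul_iff.2 ⟨ψ a, hAC (app_mem_smul.2 ha), hχ' a ha⟩
  · rw [Equiv.Perm.inv_eq_iff_eq, hχ' a ha]

theorem Gen.hom_step (hE : Gen n E) {lam : Equiv.Perm X} (hl : Pres n lam)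
    {ψ : Equiv.Perm (X × ℕ)} {A : Finset (X × ℕ)} (h : HomPI E lam ψ A) (m : X × ℕ) :
    ∃ (χ : Equiv.Perm (X × ℕ)) (B : Finset (X × ℕ)),
      HomPI E lam χ B ∧ A ⊆ B ∧ m ∈ B ∧ m ∈ χ • B ∧ ∀ a ∈ A, χ a = ψ a := by
  obtain ⟨χ, B, h1, hAB, hm, hχ⟩ := hE.hom_forth hl h m
  obtain ⟨χ', C, h2, hBC, hm', hχ'⟩ := hE.hom_back hl h1 m
  exact ⟨χ', C, h2, hAB.trans hBC, hBC hm, hm', fun a ha => (hχ' a (hAB ha)).trans (hχ a ha)⟩

theorem Gen.hom (hE : Gen n E) {lam : Equiv.Perm X} (hl : Pres n lam) {ψ : Equiv.Perm (X × ℕ)}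
    (hψ : Tw lam ψ) {A : Finset (X × ℕ)} (hA : Cl E A) (hA' : Cl E (ψ • A))
    (he : ∀ e, e ⊆ A → (e ∈ E ↔ ψ • e ∈ E)) :
    ∃ π : Equiv.Perm (X × ℕ), Tw lam π ∧ IsAut E π ∧ ∀ a ∈ A, π a = ψ a := by
  rcases isEmpty_or_nonempty (X × ℕ) with hX | hX
  · exact ⟨ψ, hψ, fun e => (he e fun x => isEmptyElim x).symm, fun _ _ => rfl⟩
  obtain ⟨u, hu⟩ := exists_surjective_nat (X × ℕ)
  have hstep : ∀ (p : {p : Equiv.Perm (X × ℕ) × Finset (X × ℕ) // HomPI E lam p.1 p.2})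
      (m : X × ℕ), ∃ q : {p : Equiv.Perm (X × ℕ) × Finset (X × ℕ) // HomPI E lam p.1 p.2},
        p.1.2 ⊆ q.1.2 ∧ m ∈ q.1.2 ∧ m ∈ q.1.1 • q.1.2 ∧ ∀ a ∈ p.1.2, q.1.1 a = p.1.1 a := by
    intro p m
    obtain ⟨χ, B, h1, h2⟩ := hE.hom_step hl p.2 m
    exact ⟨⟨(χ, B), h1⟩, h2⟩
  choose st hst using hstep
  obtain ⟨s, hs0, hs⟩ : ∃ s : ℕ →
      {p : Equiv.Perm (X × ℕ) × Finset (X × ℕ) // HomPI E lam p.1 p.2},
      (s 0).1 = (ψ, A) ∧ ∀ k, s (k + 1) = st (s k) (u k) :=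
    ⟨fun k => Nat.rec ⟨(ψ, A), ⟨hψ, hA, hA', he⟩⟩ (fun k p => st p (u k)) k, rfl, fun _ => rfl⟩
  have hmono : ∀ k l, k ≤ l →
      (s k).1.2 ⊆ (s l).1.2 ∧ ∀ a ∈ (s k).1.2, (s l).1.1 a = (s k).1.1 a := by
    intro k l hkl
    induction l, hkl using Nat.le_induction with
    | base => exact ⟨Finset.Subset.refl _, fun _ _ => rfl⟩
    | succ l _ ih =>
      have h := hst (s l) (u l)
      rw [← hs] at h
      exact ⟨ih.1.trans h.1, fun a ha => (h.2.2.2 a (ih.1 ha)).trans (ih.2 a ha)⟩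
  have hN : ∀ m, ∃ k, m ∈ (s k).1.2 ∧ m ∈ (s k).1.1 • (s k).1.2 := by
    intro m
    obtain ⟨k, rfl⟩ := hu m
    have h := hst (s k) (u k)
    rw [← hs] at h
    exact ⟨k + 1, h.2.1, h.2.2.1⟩
  choose N hN1 hN2 using hN
  have hkey : ∀ k, ∀ a ∈ (s k).1.2, (s (N a)).1.1 a = (s k).1.1 a := fun k a ha =>
    ((hmono _ _ (le_max_left (N a) k)).2 a (hN1 a)).symm.trans
      ((hmono _ _ (le_max_right (N a) k)).2 a ha)
  have hfin : ∀ e : Finset (X × ℕ), ∃ k, e ⊆ (s k).1.2 := fun e =>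
    ⟨e.sup N, fun a ha => (hmono _ _ (Finset.le_sup ha)).1 (hN1 a)⟩
  have hbij : Function.Bijective fun a => (s (N a)).1.1 a := by
    constructor
    · intro a b hab
      obtain ⟨k, hk⟩ := hfin {a, b}
      have ha := hkey k a (hk (by simp))
      have hb := hkey k b (hk (by simp))
      exact (s k).1.1.injective (ha.symm.trans (hab.trans hb))
    · intro m
      obtain ⟨a, ha, ham⟩ := mem_smul_iff.1 (hN2 m)
      exact ⟨a, (hkey _ a ha).trans ham⟩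
  obtain ⟨π, hπ⟩ : ∃ π : Equiv.Perm (X × ℕ), ∀ a, π a = (s (N a)).1.1 a :=
    ⟨Equiv.ofBijective _ hbij, fun _ => rfl⟩
  refine ⟨π, fun m => by rw [hπ]; exact (s (N m)).2.tw m, fun e => ?_, fun a ha => ?_⟩
  · obtain ⟨k, hk⟩ := hfin e
    rw [smul_congr (h := (s k).1.1) fun y hy => (hπ y).trans (hkey k y (hk hy))]
    exact ((s k).2.ed e hk).symm
  · have h := hkey 0 a (by rw [hs0]; exact ha)
    rw [hs0] at h
    exact (hπ a).trans h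

end Pool.Agent.Lib.MP_94c136_al.RZ
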