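import Pool.Agent.Lib.MP_94c136_al.RZ.Free

/-!
The restriction to one sort is an oligomorphic group.
-/

set_option autoImplicit false
set_option linter.unusedSectionVars false

namespace Pool.Agent.Lib.MP_94c136_al.RZ

open scoped Pointwise

variable {X : Type*} [DecidableEq X] [Countable X] {n : X → X → ℕ} {E : Set (Finset (X × ℕ))}

theorem Gen.support_two (hE : Gen n E) (x0 : X) (m : X × ℕ) : ∃ Z : Finset ℕ, ∀ g h : grp E,
    (∀ i ∈ Z, SInf.app (rs E x0 g) i = SInf.app (rs E x0 h) i) → g.1 m = h.1 m := by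
  obtain ⟨Z, hZ⟩ := hE.support x0 m
  refine ⟨Z, fun g h e => ?_⟩
  have := hZ (h⁻¹ * g) fun i hi => by
    change h.1⁻¹ (g.1 (x0, i)) = (x0, i)
    have e1 := e i hi
    rw [app_rs, app_rs] at e1
    rw [Equiv.Perm.inv_eq_iff_eq, pair_eq g, pair_eq h, e1]
  change h.1⁻¹ (g.1 m) = m at this
  rwa [Equiv.Perm.inv_eq_iff_eq] at this

theorem Gen.support_fin (hE : Gen n E) (x0 : X) (F : Finset (X × ℕ)) : ∃ Z : Finset ℕ,
    ∀ g h : grp E, (∀ i ∈ Z, SInf.app (rs E x0 g) i = SInf.app (rs E x0 h) i) →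
      ∀ m ∈ F, g.1 m = h.1 m := by
  choose Z hZ using hE.support_two x0
  exact ⟨F.biUnion Z, fun g h e m hm =>
    hZ m g h fun i hi => e i (Finset.mem_biUnion.2 ⟨m, hm, hi⟩)⟩

theorem isOpen_agree (Z : Finset ℕ) (f : ℕ → ℕ) :
    IsOpen {τ : SInf | ∀ i ∈ Z, SInf.app τ i = f i} := by
  have : {τ : SInf | ∀ i ∈ Z, SInf.app τ i = f i} = ⋂ i ∈ Z, {τ : SInf | SInf.app τ i = f i} := by
    ext τ
    simp
  rw [this]
  exact isOpen_biInter_finset fun i _ => (isOpen_discrete {f i}).preimage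
    ((continuous_apply i).comp (continuous_induced_dom (f := SInf.app)))

theorem app_inv_iff (τ : SInf) (i j : ℕ) : SInf.app τ⁻¹ i = j ↔ SInf.app τ j = i :=
  (Equiv.symm_apply_eq (show Equiv.Perm ℕ from τ)).trans eq_comm

theorem Gen.rs_inj (hE : Gen n E) (x0 : X) : Function.Injective (rs E x0) := by
  intro g h e
  refine Subtype.ext (Equiv.ext fun m => ?_)
  obtain ⟨Z, hZ⟩ := hE.support_two x0 m
  exact hZ g h fun i _ => by rw [e]

theorem Gen.isClosed (hE : Gen n E) (x0 : X) : IsClosed (GG E x0 : Set SInf) := by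
  refine isClosed_of_closure_subset fun σ hσ => ?_
  have apx : ∀ Y : Finset ℕ, ∃ g : grp E, ∀ i ∈ Y, SInf.app (rs E x0 g) i = SInf.app σ i := by
    intro Y
    obtain ⟨τ, h1, g, rfl⟩ := mem_closure_iff.1 hσ _ (isOpen_agree Y (SInf.app σ)) fun _ _ => rfl
    exact ⟨g, h1⟩
  choose G hG using apx
  choose Z hZ using hE.support_two x0
  set π : X × ℕ → X × ℕ := fun m => (G (Z m)).1 m with hπ
  have key : ∀ (m : X × ℕ) (Y : Finset ℕ), Z m ⊆ Y → π m = (G Y).1 m := fun m Y hY =>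
    hZ m _ _ fun i hi => by rw [hG _ i hi, hG _ i (hY hi)]
  have inj : Function.Injective π := fun m m' e => by
    rw [key m (Z m ∪ Z m') Finset.subset_union_left,
      key m' (Z m ∪ Z m') Finset.subset_union_right] at e
    exact (G _).1.injective e
  have inv : ∀ (Y W : Finset ℕ), Y.image (SInf.app σ⁻¹) ⊆ W → ∀ i ∈ Y,
      SInf.app (rs E x0 (G W)⁻¹) i = SInf.app σ⁻¹ i := fun Y W hW i hi => by
    rw [map_inv, app_inv_iff, hG W _ (hW (Finset.mem_image_of_mem _ hi)), ← app_inv_iff]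
  have surj : Function.Surjective π := fun m => by
    set m' := ((G ((Z m).image (SInf.app σ⁻¹)))⁻¹).1 m with hm'
    refine ⟨m', ?_⟩
    rw [key m' (Z m' ∪ (Z m).image (SInf.app σ⁻¹)) Finset.subset_union_left]
    have := hZ m (G (Z m' ∪ (Z m).image (SInf.app σ⁻¹)))⁻¹ (G ((Z m).image (SInf.app σ⁻¹)))⁻¹
      fun i hi => by
        rw [inv (Z m) _ Finset.subset_union_right i hi, inv (Z m) _ subset_rfl i hi]
    rw [← hm'] at this
    change (G _).1⁻¹ m = m' at this
    rw [Equiv.Perm.inv_eq_iff_eq] at this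
    exact this.symm
  refine ⟨⟨Equiv.ofBijective π ⟨inj, surj⟩, fun m => (G (Z m)).2.1 m, fun e => ?_⟩, ?_⟩
  · have : Equiv.ofBijective π ⟨inj, surj⟩ • e = (G (e.biUnion Z)).1 • e :=
      smul_congr fun y hy => key y _ (Finset.subset_biUnion_of_mem Z hy)
    rw [this]
    exact (G _).2.2 e
  · refine Equiv.ext fun i => ?_
    change (π (x0, i)).2 = SInf.app σ i
    rw [key _ (insert i (Z (x0, i))) (Finset.subset_insert _ _), ← app_rs,
      hG _ i (Finset.mem_insert_self _ _)]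

/-- the topology of the restricted group is pointwise convergence on all sorts -/
theorem Gen.isOpen_iff (hE : Gen n E) (x0 : X) (O : Set (GG E x0)) :
    IsOpen O ↔ ∀ g : grp E, (rs E x0).rangeRestrict g ∈ O → ∃ F : Finset (X × ℕ),
      ∀ h : grp E, (∀ a ∈ F, h.1 a = g.1 a) → (rs E x0).rangeRestrict h ∈ O := by
  constructor
  · intro hO g hg
    obtain ⟨U, hU, rfl⟩ := isOpen_induced_iff.1 hO
    obtain ⟨W, hW, rfl⟩ := isOpen_induced_iff.1 hU
    obtain ⟨I, u, h1, h2⟩ := isOpen_pi_iff.1 hW _ hg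
    refine ⟨I.image fun i => (x0, i), fun h e => h2 fun i hi => ?_⟩
    change SInf.app (rs E x0 h) i ∈ u i
    rw [app_rs, e _ (Finset.mem_image_of_mem _ hi)]
    exact (h1 i hi).2
  · intro H
    refine isOpen_iff_forall_mem_open.2 fun τ hτ => ?_
    obtain ⟨g, rfl⟩ := (rs E x0).rangeRestrict_surjective τ
    obtain ⟨F, hF⟩ := H g hτ
    obtain ⟨Z, hZ⟩ := hE.support_fin x0 F
    refine ⟨Subtype.val ⁻¹' {τ : SInf | ∀ i ∈ Z, SInf.app τ i = SInf.app (rs E x0 g) i}, ?_,
      (isOpen_agree Z _).preimage continuous_subtype_val, fun _ _ => rfl⟩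
    intro τ' h'
    obtain ⟨h, rfl⟩ := (rs E x0).rangeRestrict_surjective τ'
    exact hF h (hZ h g h')

/-- the sorts at distance at most `j` from `x0` -/
noncomputable def ballS (hp : Proper n) (x0 : X) (N : ℕ) : ℕ → Finset X
  | 0 => {x0}
  | j + 1 => ballS hp x0 N j ∪ (ballS hp x0 N j).biUnion fun x => (hp x N).toFinset

theorem ballS_zero (hp : Proper n) (x0 : X) (N j : ℕ) : x0 ∈ ballS hp x0 N j := by
  induction j with
  | zero => simp [ballS]
  | succ j ih => exact Finset.mem_union_left _ ih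

theorem ballS_succ (hp : Proper n) {x0 : X} {N j : ℕ} {x y : X} (hx : x ∈ ballS hp x0 N j)
    (h : y = x ∨ n x y ≤ N ∨ n y x ≤ N) : y ∈ ballS hp x0 N (j + 1) := by
  rcases h with rfl | h
  · exact Finset.mem_union_left _ hx
  · exact Finset.mem_union_right _ (Finset.mem_biUnion.2 ⟨x, hx, by simpa using h⟩)

theorem Good.cl_filter (hE : Good n E) (hp : Proper n) {x0 : X} {N j : ℕ} {P : Finset (X × ℕ)}
    (hP : Cl E P) (hN : P.card < N)
    (h : ∀ a ∈ P, a.1 ∈ ballS hp x0 N (j + 1) → a.1 ∈ ballS hp x0 N j) :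
    Cl E (P.filter fun a => a.1 ∈ ballS hp x0 N j) := by
  set Y := P.filter fun a => a.1 ∈ ballS hp x0 N j with hY
  refine hP.trans (Finset.filter_subset _ _) fun W hYW hWP => ?_
  have hU : Y ∪ (W \ Y) = W := Finset.union_sdiff_of_subset hYW.subset
  have hI : Y ∩ (W \ Y) = ∅ := Finset.inter_sdiff_self _ _
  have hfr : Fr E Y (W \ Y) := by
    intro e he heW
    rw [hU] at heW
    by_cases hx : ∃ a ∈ e, a ∈ Y
    · left
      obtain ⟨a, hae, haY⟩ := hx
      obtain ⟨x, b, hb, -, hoth, hcard⟩ := hE.pat e he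
      have hle : n x b.1 ≤ N := by
        have := Finset.card_le_card (heW.trans hWP)
        omega
      have ha1 : a.1 ∈ ballS hp x0 N j := (Finset.mem_filter.1 haY).2
      intro a' ha'
      have ha'P : a' ∈ P := hWP (heW ha')
      refine Finset.mem_filter.2 ⟨ha'P, h a' ha'P (ballS_succ hp ha1 ?_)⟩
      by_cases e1 : a = b <;> by_cases e2 : a' = b
      · left; rw [e1, e2]
      · right; right; rw [e1, hoth a' ha' e2]; exact hle
      · right; left; rw [e2, hoth a hae e1]; exact hle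
      · left; rw [hoth a hae e1, hoth a' ha' e2]
    · right
      intro a ha
      exact Finset.mem_sdiff.2 ⟨heW ha, fun h' => hx ⟨a, ha, h'⟩⟩
  have h1 := del_mod hfr
  rw [hU, hI] at h1
  have h2 := del_le_card E (∅ : Finset (X × ℕ))
  have h3 : (W \ Y).Nonempty := Finset.sdiff_nonempty.2 hYW.not_subset
  have h4 := hE.bd.pos h3
  simp only [Finset.card_empty, Nat.cast_zero] at h2
  omega

/-- the sorts met by closures of small subsets of one sort -/
theorem Good.sorts (hE : Good n E) (hp : Proper n) (x0 : X) (k : ℕ) : ∃ C : Finset X,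
    ∀ A : Finset (X × ℕ), A.card ≤ k → (∀ a ∈ A, a.1 = x0) → ∀ b ∈ clo E A, b.1 ∈ C := by
  refine ⟨ballS hp x0 (2 ^ k) (2 ^ k), fun A hA h0 => ?_⟩
  have hc := hE.bd.isCl A
  have hN : (clo E A).card < 2 ^ k :=
    lt_of_lt_of_le (hE.bd.card_clo A) (Nat.pow_le_pow_right (by norm_num) hA)
  have key : ∀ j, (∀ b ∈ clo E A, b.1 ∈ ballS hp x0 (2 ^ k) j) ∨
      j ≤ ((clo E A).filter fun a => a.1 ∈ ballS hp x0 (2 ^ k) j).card := by
    intro j
    induction j with
    | zero => right; omega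
    | succ j ih =>
      rcases ih with ih | ih
      · left
        exact fun b hb => ballS_succ hp (ih b hb) (Or.inl rfl)
      · by_cases h : ∀ a ∈ clo E A, a.1 ∈ ballS hp x0 (2 ^ k) (j + 1) →
            a.1 ∈ ballS hp x0 (2 ^ k) j
        · left
          have h1 := hc.least _ (hE.cl_filter hp hc.cl hN h) (fun a ha =>
            Finset.mem_filter.2 ⟨hc.sub ha, by rw [h0 a ha]; exact ballS_zero hp x0 _ _⟩)
          exact fun b hb => ballS_succ hp (Finset.mem_filter.1 (h1 hb)).2 (Or.inl rfl)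
        · right
          push Not at h
          obtain ⟨a, ha, ha1, ha2⟩ := h
          have : ((clo E A).filter fun a => a.1 ∈ ballS hp x0 (2 ^ k) j) ⊂
              (clo E A).filter fun a => a.1 ∈ ballS hp x0 (2 ^ k) (j + 1) := by
            refine (Finset.ssubset_iff_of_subset fun b hb => ?_).2
              ⟨a, Finset.mem_filter.2 ⟨ha, ha1⟩, fun h' => ha2 (Finset.mem_filter.1 h').2⟩
            exact Finset.mem_filter.2 ⟨(Finset.mem_filter.1 hb).1,
              ballS_succ hp (Finset.mem_filter.1 hb).2 (Or.inl rfl)⟩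
          have := Finset.card_lt_card this
          omega
  rcases key (2 ^ k) with h | h
  · exact h
  · have := Finset.card_filter_le (clo E A) fun a => a.1 ∈ ballS hp x0 (2 ^ k) (2 ^ k)
    omega

theorem tupleOrbit_eq {G : Subgroup SInf} {k : ℕ} {x x' : Fin k → ℕ} {g : SInf} (hg : g ∈ G)
    (h : ∀ i, x' i = SInf.app g (x i)) : tupleOrbit G k x = tupleOrbit G k x' := by
  have mul : ∀ (a b : SInf) (i : ℕ), SInf.app (a * b) i = SInf.app a (SInf.app b i) :=
    fun _ _ _ => rfl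
  ext y
  constructor
  · rintro ⟨u, hu, hy⟩
    refine ⟨u * g⁻¹, G.mul_mem hu (G.inv_mem hg), fun i => ?_⟩
    rw [h i, ← mul, inv_mul_cancel_right, hy i]
  · rintro ⟨u, hu, hy⟩
    exact ⟨u * g, G.mul_mem hu hg, fun i => by rw [mul, ← h i, hy i]⟩

/-- `d` describes the closure of the tuple `x` after a move by a colour preserving permutation -/
def Dat (E : Set (Finset (X × ℕ))) (x0 : X) {k : ℕ} (x : Fin k → ℕ)
    (d : Finset (X × ℕ) × Finset (Finset (X × ℕ)) × (Fin k → X × ℕ)) : Prop :=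
  ∃ (ψ : Equiv.Perm (X × ℕ)) (P : Finset (X × ℕ)), Tw 1 ψ ∧ Cl E P ∧ (∀ i, (x0, x i) ∈ P) ∧
    ψ • P = d.1 ∧ (∀ e, e ⊆ P → (e ∈ E ↔ ψ • e ∈ d.2.1)) ∧ ∀ i, ψ (x0, x i) = d.2.2 i

theorem Gen.dat_eq (hE : Gen n E) {x0 : X} {k : ℕ} {x x' : Fin k → ℕ}
    {d : Finset (X × ℕ) × Finset (Finset (X × ℕ)) × (Fin k → X × ℕ)} (h : Dat E x0 x d)
    (h' : Dat E x0 x' d) : tupleOrbit (GG E x0) k x = tupleOrbit (GG E x0) k x' := by
  obtain ⟨ψ, P, t, c, m, e1, e2, e3⟩ := h
  obtain ⟨ψ', P', t', c', m', e1', e2', e3'⟩ := h'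
  have hP : (ψ'⁻¹ * ψ) • P = P' := by rw [mul_smul, e1, ← e1', inv_smul_smul]
  have ht : Tw 1 (ψ'⁻¹ * ψ) := by simpa using t'.inv.mul t
  obtain ⟨π, p1, p2, p3⟩ := hE.hom (Pres.one n) ht c (by rw [hP]; exact c') (by
    intro e he
    have hs : (ψ'⁻¹ * ψ) • e ⊆ P' := by
      rw [← hP]; exact Finset.smul_finset_subset_smul_finset he
    rw [e2 e he, e2' _ hs, mul_smul, smul_inv_smul])
  refine tupleOrbit_eq (g := rs E x0 ⟨π, p1, p2⟩) ⟨_, rfl⟩ fun i => ?_
  rw [app_rs]
  change x' i = (π (x0, x i)).2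
  rw [p3 _ (m i), Equiv.Perm.mul_apply, e3 i, ← e3' i]
  simp

theorem Gen.finite_orbits (hE : Gen n E) (hp : Proper n) (x0 : X) (k : ℕ) :
    (Set.range (tupleOrbit (GG E x0) k)).Finite := by
  classical
  obtain ⟨C, hC⟩ := hE.good.sorts hp x0 k
  set Bx : Finset (X × ℕ) := C ×ˢ Finset.range (2 ^ k) with hBx
  set D : Finset (Finset (X × ℕ) × Finset (Finset (X × ℕ)) × (Fin k → X × ℕ)) :=
    Bx.powerset ×ˢ Bx.powerset.powerset ×ˢ Fintype.piFinset fun _ => Bx with hD
  have ex : ∀ x : Fin k → ℕ, ∃ d ∈ D, Dat E x0 x d := by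
    intro x
    set A : Finset (X × ℕ) := Finset.univ.image fun i => (x0, x i) with hA
    have hAk : A.card ≤ k := by
      simpa using Finset.card_image_le (s := (Finset.univ : Finset (Fin k)))
        (f := fun i => (x0, x i))
    have hc := hE.good.bd.isCl A
    have hN : (clo E A).card < 2 ^ k :=
      lt_of_lt_of_le (hE.good.bd.card_clo A) (Nat.pow_le_pow_right (by norm_num) hAk)
    have hcol := hC A hAk (by
      intro a ha
      obtain ⟨i, -, rfl⟩ := Finset.mem_image.1 ha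
      rfl)
    set P := clo E A with hP
    obtain ⟨ψ, t, hψ⟩ := exists_perm (1 : Equiv.Perm X) P
      (fun a => if h : a ∈ P then (a.1, (P.equivFin ⟨a, h⟩ : ℕ)) else a) (by
        intro a ha b hb hab
        have ha' : a ∈ P := ha
        have hb' : b ∈ P := hb
        simp only [dif_pos ha', dif_pos hb', Prod.mk.injEq] at hab
        have := P.equivFin.injective (Fin.ext hab.2)
        exact congrArg Subtype.val this) (by
        intro a ha
        simp [dif_pos ha])
    have hin : ∀ a ∈ P, ψ a ∈ Bx := by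
      intro a ha
      rw [hψ a ha, dif_pos ha]
      refine Finset.mem_product.2 ⟨hcol a ha, Finset.mem_range.2 ?_⟩
      exact lt_trans (P.equivFin ⟨a, ha⟩).2 hN
    have hsub : ψ • P ⊆ Bx := by
      intro m hm
      obtain ⟨y, hy, rfl⟩ := mem_smul_iff.1 hm
      exact hin y hy
    have hm : ∀ i, (x0, x i) ∈ P := fun i =>
      hc.sub (Finset.mem_image.2 ⟨i, Finset.mem_univ _, rfl⟩)
    refine ⟨(ψ • P, Bx.powerset.filter (fun e => ψ⁻¹ • e ∈ E), fun i => ψ (x0, x i)), ?_,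
      ψ, P, t, hc.cl, hm, rfl, fun e he => ?_, fun _ => rfl⟩
    · simp only [hD, Finset.mem_product, Finset.mem_powerset, Fintype.mem_piFinset]
      exact ⟨hsub, Finset.filter_subset _ _, fun i => hin _ (hm i)⟩
    · simp only [Finset.mem_filter, Finset.mem_powerset, inv_smul_smul]
      exact ⟨fun h => ⟨(Finset.smul_finset_subset_smul_finset he).trans hsub, h⟩, fun h => h.2⟩
  refine (D.finite_toSet.image fun d =>
    if h : ∃ x, Dat E x0 x d then tupleOrbit (GG E x0) k h.choose else ∅).subset ?_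
  rintro _ ⟨x, rfl⟩
  obtain ⟨d, hd, hx⟩ := ex x
  have h : ∃ x, Dat E x0 x d := ⟨x, hx⟩
  exact ⟨d, hd, by simp only [dif_pos h]; exact hE.dat_eq h.choose_spec hx⟩

end Pool.Agent.Lib.MP_94c136_al.RZ
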