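import Pool.Agent.Lib.MP_94c136_al.RZ.Stab
import Pool.Agent.Lib.MP_94c136_al.RZ.Olig

/-!
The outer automorphism group of the restricted group.
-/

set_option autoImplicit false
set_option linter.unusedSectionVars false

namespace Pool.Agent.Lib.MP_94c136_al.RZ

open scoped Pointwise

variable {X : Type*} [DecidableEq X] [Countable X] {n : X → X → ℕ} {E : Set (Finset (X × ℕ))}

/-- the group of the structure is the restricted group -/
noncomputable def Gen.iso (hE : Gen n E) (x0 : X) : grp E ≃* GG E x0 :=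
  MonoidHom.ofInjective (hE.rs_inj x0)

theorem Gen.iso_eq (hE : Gen n E) (x0 : X) (g : grp E) :
    hE.iso x0 g = (rs E x0).rangeRestrict g := rfl

theorem Gen.isOpen_iff' (hE : Gen n E) (x0 : X) (O : Set (GG E x0)) :
    IsOpen O ↔ ∀ g : grp E, hE.iso x0 g ∈ O → ∃ F : Finset (X × ℕ),
      ∀ h : grp E, (∀ a ∈ F, h.1 a = g.1 a) → hE.iso x0 h ∈ O := hE.isOpen_iff x0 O

theorem Gen.center (hE : Gen n E) (x0 : X) : Subgroup.center (GG E x0) = ⊥ := by
  rw [eq_bot_iff]
  intro z hz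
  obtain ⟨g, rfl⟩ := (hE.iso x0).surjective z
  have hc : ∀ h : grp E, h * g = g * h := fun h => (hE.iso x0).injective (by
    rw [map_mul, map_mul]; exact Subgroup.mem_center_iff.mp hz _)
  have : g = 1 := by
    refine Subtype.ext (Equiv.ext fun m => ?_)
    refine (hE.fix_inj (m := m) (m' := g.1 m) fun h hh => ?_).symm
    intro a ha
    rw [Finset.mem_singleton.mp ha]
    have e := congrArg (fun k : grp E => k.1 m) (hc h)
    change h.1 (g.1 m) = g.1 (h.1 m) at e
    rw [e, hh m (Finset.mem_singleton_self m)]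
  rw [this, map_one]
  exact Subgroup.mem_bot.mpr rfl

theorem Gen.opn_iff (hE : Gen n E) (x0 : X) (V : Subgroup (grp E)) :
    Opn E V ↔ IsOpen {σ : GG E x0 | (hE.iso x0).symm σ ∈ V} := by
  rw [hE.isOpen_iff' x0]
  simp only [Set.mem_ofPred_eq, MulEquiv.symm_apply_apply]
  constructor
  · rintro ⟨F, hF⟩ g hg
    refine ⟨F, fun h hh => ?_⟩
    have : g⁻¹ * h ∈ V := hF fun a ha => by
      change g.1⁻¹ (h.1 a) = a
      rw [hh a ha]; simp
    simpa using V.mul_mem hg this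
  · intro h
    obtain ⟨F, hF⟩ := h 1 V.one_mem
    exact ⟨F, fun g hg => hF g hg⟩

/-- an automorphism of the restricted group, read on the group of the structure -/
noncomputable def Gen.pull (hE : Gen n E) (x0 : X) (β : GG E x0 ≃* GG E x0) : grp E ≃* grp E :=
  ((hE.iso x0).trans β).trans (hE.iso x0).symm

theorem Gen.pull_opn (hE : Gen n E) (x0 : X) (β : GG E x0 ≃* GG E x0) (hβ : Continuous β)
    (V : Subgroup (grp E)) (hV : Opn E V) : Opn E (V.comap (hE.pull x0 β).toMonoidHom) := by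
  rw [hE.opn_iff x0] at hV ⊢
  have := hV.preimage hβ
  refine (congrArg IsOpen (Set.ext fun σ => ?_)).mp this
  simp [Gen.pull, Subgroup.mem_comap]

/-- `π` induces the automorphism `α` and the permutation `lam` of the sorts -/
structure Ind (hE : Gen n E) (x0 : X) (α : Aut (GG E x0)) (π : Equiv.Perm (X × ℕ))
    (lam : Equiv.Perm X) : Prop where
  pres : Pres n lam
  tw : Tw lam π
  aut : IsAut E π
  eq : ∀ (g : grp E) m, ((hE.iso x0).symm (α.app (hE.iso x0 g))).1 (π m) = π (g.1 m)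

theorem Gen.exists_ind (hE : Gen n E) (x0 : X) (α : Aut (GG E x0)) :
    ∃ π lam, Ind hE x0 α π lam := by
  obtain ⟨β, h1, h2⟩ := α
  obtain ⟨π, lam, a, b, c, d⟩ := hE.recon (hE.pull x0 β) (hE.pull_opn x0 β h1)
    (hE.pull_opn x0 β.symm h2)
  exact ⟨π, lam, a, b, c, d⟩

theorem app_mul' {G : Type} [Group G] [TopologicalSpace G] (α : Aut G) (u v : G) :
    α.app (u * v) = α.app u * α.app v := map_mul (show topAutSubgroup G from α).1 u v

theorem app_surj {G : Type} [Group G] [TopologicalSpace G] (α : Aut G) :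
    Function.Surjective α.app := (show topAutSubgroup G from α).1.surjective

theorem app_inj {G : Type} [Group G] [TopologicalSpace G] (α : Aut G) :
    Function.Injective α.app := (show topAutSubgroup G from α).1.injective

/-- the stabiliser of a point in the restricted group -/
def Gen.st (hE : Gen n E) (x0 : X) (m : X × ℕ) : Set (GG E x0) :=
  {σ | ((hE.iso x0).symm σ).1 m = m}

theorem Gen.st_inj (hE : Gen n E) (x0 : X) {m m' : X × ℕ} (h : hE.st x0 m = hE.st x0 m') :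
    m = m' := by
  refine hE.fix_inj fun g hg a ha => ?_
  rw [Finset.mem_singleton.mp ha]
  have : hE.iso x0 g ∈ hE.st x0 m := by
    simpa [Gen.st] using hg m (Finset.mem_singleton_self m)
  rw [h] at this
  simpa [Gen.st] using this

theorem Gen.st_coset (hE : Gen n E) (x0 : X) (m : X × ℕ) : IsOpenCoset (hE.st x0 m) := by
  refine ⟨(Fix E {m}).comap (hE.iso x0).symm.toMonoidHom, ?_, 1, ?_⟩
  · exact (hE.opn_iff x0 _).mp ⟨{m}, le_rfl⟩
  · ext σ
    simp [Gen.st, mem_Fix]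

theorem Ind.image_st {hE : Gen n E} {x0 : X} {α : Aut (GG E x0)} {π : Equiv.Perm (X × ℕ)}
    {lam : Equiv.Perm X} (h : Ind hE x0 α π lam) (m : X × ℕ) :
    α.app '' hE.st x0 m = hE.st x0 (π m) := by
  ext σ
  obtain ⟨τ, rfl⟩ := app_surj α σ
  obtain ⟨g, rfl⟩ := (hE.iso x0).surjective τ
  rw [(app_inj α).mem_set_image]
  change _ ↔ ((hE.iso x0).symm (α.app (hE.iso x0 g))).1 (π m) = π m
  rw [h.eq, π.injective.eq_iff]
  simp [Gen.st]

theorem Ind.unique {hE : Gen n E} {x0 : X} {α : Aut (GG E x0)} {π π' : Equiv.Perm (X × ℕ)}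
    {lam lam' : Equiv.Perm X} (h : Ind hE x0 α π lam) (h' : Ind hE x0 α π' lam') : lam = lam' := by
  ext x
  have := hE.st_inj x0 ((h.image_st (x, 0)).symm.trans (h'.image_st (x, 0)))
  exact (h.tw (x, 0)).symm.trans ((congrArg Prod.fst this).trans (h'.tw (x, 0)))

theorem Ind.mul {hE : Gen n E} {x0 : X} {α α' : Aut (GG E x0)} {π π' : Equiv.Perm (X × ℕ)}
    {lam lam' : Equiv.Perm X} (h : Ind hE x0 α π lam) (h' : Ind hE x0 α' π' lam') :
    Ind hE x0 (α * α') (π * π') (lam * lam') where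
  pres x y hxy := by
    rw [Equiv.Perm.mul_apply, Equiv.Perm.mul_apply, h.pres _ _ (lam'.injective.ne hxy),
      h'.pres _ _ hxy]
  tw := h.tw.mul h'.tw
  aut := h.aut.mul h'.aut
  eq g m := by
    have e := h.eq ((hE.iso x0).symm (α'.app (hE.iso x0 g))) (π' m)
    rw [MulEquiv.apply_symm_apply, h'.eq] at e
    exact e

/-- conjugation by a twisted automorphism -/
def conjG {lam : Equiv.Perm X} {π : Equiv.Perm (X × ℕ)} (h1 : Tw lam π) (h2 : IsAut E π) :
    grp E ≃* grp E where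
  toFun g := ⟨π * g.1 * π⁻¹, by simpa using (h1.mul g.2.1).mul h1.inv,
    (h2.mul g.2.2).mul h2.inv⟩
  invFun g := ⟨π⁻¹ * g.1 * π, by simpa using (h1.inv.mul g.2.1).mul h1,
    (h2.inv.mul g.2.2).mul h2⟩
  left_inv g := Subtype.ext (by simp [mul_assoc])
  right_inv g := Subtype.ext (by simp [mul_assoc])
  map_mul' g h := Subtype.ext (by simp [mul_assoc])

theorem Gen.continuous_of (hE : Gen n E) (x0 : X) (f : grp E → grp E) (π : Equiv.Perm (X × ℕ))
    (hf : ∀ g m, (f g).1 (π m) = π (g.1 m)) :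
    Continuous fun σ : GG E x0 => hE.iso x0 (f ((hE.iso x0).symm σ)) := by
  refine continuous_def.mpr fun O hO => ?_
  rw [hE.isOpen_iff' x0] at hO ⊢
  intro g hg
  simp only [Set.mem_preimage, MulEquiv.symm_apply_apply] at hg ⊢
  obtain ⟨F, hF⟩ := hO _ hg
  refine ⟨π⁻¹ • F, fun h hh => hF _ fun a ha => ?_⟩
  have e := hh (π⁻¹ a) (app_mem_smul.mpr ha)
  have e1 := hf h (π⁻¹ a)
  have e2 := hf g (π⁻¹ a)
  rw [e, ← e2] at e1
  simpa using e1

theorem Gen.exists_aut (hE : Gen n E) (x0 : X) {lam : Equiv.Perm X} {π : Equiv.Perm (X × ℕ)}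
    (h0 : Pres n lam) (h1 : Tw lam π) (h2 : IsAut E π) : ∃ α, Ind hE x0 α π lam := by
  refine ⟨⟨((hE.iso x0).symm.trans (conjG h1 h2)).trans (hE.iso x0), ?_, ?_⟩, h0, h1, h2, ?_⟩
  · exact hE.continuous_of x0 (conjG h1 h2) π fun g m => by simp [conjG]
  · exact hE.continuous_of x0 (conjG h1 h2).symm π⁻¹ fun g m => by simp [conjG]
  · intro g m
    change ((hE.iso x0).symm (hE.iso x0 (conjG h1 h2 ((hE.iso x0).symm (hE.iso x0 g))))).1 (π m) = _
    simp [conjG]

theorem Ind.inn_iff {hE : Gen n E} {x0 : X} {α : Aut (GG E x0)} {π : Equiv.Perm (X × ℕ)}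
    {lam : Equiv.Perm X} (h : Ind hE x0 α π lam) : α ∈ Inn (GG E x0) ↔ lam = 1 := by
  constructor
  · rintro ⟨σ, hσ⟩
    obtain ⟨k, rfl⟩ := (hE.iso x0).surjective σ
    refine h.unique (π' := k.1) ⟨Pres.one n, k.2.1, k.2.2, fun g m => ?_⟩
    rw [hσ, ← map_inv, ← map_mul, ← map_mul, MulEquiv.symm_apply_apply]
    simp
  · rintro rfl
    refine ⟨hE.iso x0 ⟨π, h.tw, h.aut⟩, fun σ => ?_⟩
    obtain ⟨g, rfl⟩ := (hE.iso x0).surjective σ
    rw [← map_inv, ← map_mul, ← map_mul, ← MulEquiv.symm_apply_eq]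
    refine Subtype.ext (Equiv.ext fun m => ?_)
    obtain ⟨m, rfl⟩ := π.surjective m
    rw [h.eq]
    simp

/-- every open coset is fixed by the automorphisms that fix enough points -/
theorem Gen.coset_fixed (hE : Gen n E) (x0 : X) {B : Set (GG E x0)} (hB : IsOpenCoset B) :
    ∃ F : Finset (X × ℕ), ∀ β π lam, Ind hE x0 β π lam → (∀ a ∈ F, π a = a) →
      β.app '' B = B := by
  obtain ⟨U, hU, σ, rfl⟩ := hB
  obtain ⟨k, rfl⟩ := (hE.iso x0).surjective σ
  have hV : Opn E (U.comap (hE.iso x0).toMonoidHom) := by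
    rw [hE.opn_iff x0]
    refine (congrArg IsOpen (Set.ext fun σ => ?_)).mp hU
    simp [Subgroup.mem_comap]
  obtain ⟨A, _, hA1, hA2⟩ := hE.wei hV
  have mem : ∀ g : grp E, hE.iso x0 g ∈ (fun u => hE.iso x0 k * u) '' (U : Set (GG E x0)) ↔
      k⁻¹ * g ∈ U.comap (hE.iso x0).toMonoidHom := fun g => by
    simp [Subgroup.mem_comap]
  have key : ∀ (π : Equiv.Perm (X × ℕ)) (g g' : grp E), (∀ a ∈ A ∪ k.1 • A, π a = a) →
      (∀ m, g'.1 (π m) = π (g.1 m)) → k⁻¹ * g ∈ U.comap (hE.iso x0).toMonoidHom →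
      k⁻¹ * g' ∈ U.comap (hE.iso x0).toMonoidHom := by
    intro π g g' hπ hg hk
    have h1 : g⁻¹ * g' ∈ Fix E A := fun a ha => by
      have ha' : (k⁻¹ * g).1 a ∈ A := by
        rw [← hA2 _ hk]; exact app_mem_smul.mpr ha
      have hb : g.1 a ∈ k.1 • A := mem_smul_iff.mpr ⟨_, ha', by simp⟩
      have e := hg a
      rw [hπ a (Finset.mem_union_left _ ha), hπ _ (Finset.mem_union_right _ hb)] at e
      change g.1⁻¹ (g'.1 a) = a
      rw [e]; simp
    have := Subgroup.mul_mem _ hk (hA1 h1)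
    simpa [mul_assoc] using this
  refine ⟨A ∪ k.1 • A, fun β π lam h hπ => ?_⟩
  ext σ
  obtain ⟨τ, rfl⟩ := app_surj β σ
  obtain ⟨g, rfl⟩ := (hE.iso x0).surjective τ
  rw [(app_inj β).mem_set_image, mem,
    ← (hE.iso x0).apply_symm_apply (β.app (hE.iso x0 g)), mem]
  refine ⟨key π _ _ hπ (h.eq g), key π⁻¹ _ _ (fun a ha => ?_) fun m => ?_⟩
  · rw [Equiv.Perm.inv_eq_iff_eq, hπ a ha]
  · have := h.eq g (π⁻¹ m)
    rw [Equiv.Perm.eq_inv_iff_eq, ← this]
    simp

theorem Gen.out_iso (hE : Gen n E) (x0 : X) {L : Type*} [Group L] [TopologicalSpace L]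
    [IsTopologicalGroup L] {ρ : L →* Equiv.Perm X} (hρ : Rep L n ρ) :
    Nonempty (Out (GG E x0) ≃ₜ* L) := by
  have ex : ∀ α : Aut (GG E x0), ∃ l : L, ∃ π, Ind hE x0 α π (ρ l) := fun α => by
    obtain ⟨π, lam, h⟩ := hE.exists_ind x0 α
    obtain ⟨l, rfl⟩ := hρ.full lam h.pres
    exact ⟨l, π, h⟩
  choose φ π hφ using ex
  have uq : ∀ α l π', Ind hE x0 α π' (ρ l) → φ α = l := fun α l π' h =>
    hρ.inj ((hφ α).unique h)
  let Φ : Aut (GG E x0) →* L := MonoidHom.mk' φ fun α α' =>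
    uq _ _ _ (by rw [map_mul]; exact (hφ α).mul (hφ α'))
  have hker : Φ.ker = Inn (GG E x0) := by
    ext α
    rw [MonoidHom.mem_ker, (hφ α).inn_iff, ← map_one ρ, hρ.inj.eq_iff]
    rfl
  have hsurj : Function.Surjective Φ := fun l => by
    obtain ⟨π', h1, h2⟩ := hE.exists_twist (hρ.pres l)
    obtain ⟨α, hα⟩ := hE.exists_aut x0 (hρ.pres l) h1 h2
    exact ⟨α, uq _ _ _ hα⟩
  have hgen : ∀ A B : Set (GG E x0), IsOpenCoset A → IsOpenCoset B →
      IsOpen {α : Aut (GG E x0) | α.app '' A = B} := fun A B hA hB =>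
    TopologicalSpace.isOpen_generateFrom_of_mem ⟨A, B, hA, hB, rfl⟩
  have hcont : Continuous Φ := by
    refine continuous_iff_continuousAt.mpr fun α0 U hU => ?_
    have hU1 : (fun l => Φ α0 * l) ⁻¹' U ∈ nhds (1 : L) :=
      (continuous_const_mul (Φ α0)).continuousAt.preimage_mem_nhds (by simpa using hU)
    obtain ⟨F, hF⟩ := hρ.basis _ hU1
    have hN : (⋂ x ∈ F, {α : Aut (GG E x0) | α.app '' hE.st x0 (x, 0) = hE.st x0 (π α0 (x, 0))})
        ∈ nhds α0 := by
      refine (Filter.biInter_finset_mem F).mpr fun x _ => IsOpen.mem_nhds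
        (hgen _ _ (hE.st_coset x0 _) (hE.st_coset x0 _)) ((hφ α0).image_st _)
    refine Filter.mem_map.mpr (Filter.mem_of_superset hN fun α hα => ?_)
    have := hF ((Φ α0)⁻¹ * Φ α) fun x hx => by
      have e : α.app '' hE.st x0 (x, 0) = hE.st x0 (π α0 (x, 0)) := Set.mem_iInter₂.mp hα x hx
      rw [(hφ α).image_st] at e
      have e2 := congrArg Prod.fst (hE.st_inj x0 e)
      rw [(hφ α).tw, (hφ α0).tw] at e2
      rw [map_mul, map_inv, Equiv.Perm.mul_apply, Equiv.Perm.inv_eq_iff_eq]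
      exact e2
    simpa using this
  have hloc : ∀ O : Set (Aut (GG E x0)), IsOpen O → ∀ α0 ∈ O, ∃ F : Finset (X × ℕ),
      ∀ β π' lam, Ind hE x0 β π' lam → (∀ a ∈ F, π' a = a) → β * α0 ∈ O := by
    intro O hO
    induction hO with
    | basic S hS =>
      obtain ⟨A, B, _, hB, rfl⟩ := hS
      intro α0 h0
      obtain ⟨F, hF⟩ := hE.coset_fixed x0 hB
      refine ⟨F, fun β π' lam h hπ => ?_⟩
      have e : (β * α0).app '' A = β.app '' (α0.app '' A) := by
        rw [Set.image_image]; rfl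
      change (β * α0).app '' A = B
      rw [e, show α0.app '' A = B from h0, hF β π' lam h hπ]
    | univ => exact fun _ _ => ⟨∅, fun _ _ _ _ _ => Set.mem_univ _⟩
    | inter s t _ _ ihs iht =>
      intro α0 h0
      obtain ⟨F1, h1⟩ := ihs α0 h0.1
      obtain ⟨F2, h2⟩ := iht α0 h0.2
      exact ⟨F1 ∪ F2, fun β π' lam h hπ =>
        ⟨h1 β π' lam h fun a ha => hπ a (Finset.mem_union_left _ ha),
          h2 β π' lam h fun a ha => hπ a (Finset.mem_union_right _ ha)⟩⟩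
    | sUnion S _ ih =>
      rintro α0 ⟨s, hs, h0⟩
      obtain ⟨F, hF⟩ := ih s hs α0 h0
      exact ⟨F, fun β π' lam h hπ => ⟨s, hs, hF β π' lam h hπ⟩⟩
  have hopen : IsOpenMap Φ := by
    intro O hO
    refine isOpen_iff_mem_nhds.mpr ?_
    rintro _ ⟨α0, h0, rfl⟩
    obtain ⟨F, hF⟩ := hloc O hO α0 h0
    obtain ⟨C, hC⟩ := hE.twist F
    have hW : (⋂ x ∈ C, (fun l => l * (Φ α0)⁻¹) ⁻¹' {l : L | ρ l x = x}) ∈ nhds (Φ α0) := by
      refine (Filter.biInter_finset_mem C).mpr fun x _ => IsOpen.mem_nhds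
        ((hρ.opn x).preimage (continuous_mul_const _)) (by simp)
    refine Filter.mem_of_superset hW fun l hl => ?_
    obtain ⟨π', h1, h2, h3⟩ := hC (ρ (l * (Φ α0)⁻¹)) (hρ.pres _) fun x hx =>
      Set.mem_iInter₂.mp hl x hx
    obtain ⟨β, hβ⟩ := hE.exists_aut x0 (hρ.pres _) h1 h2
    refine ⟨β * α0, hF β π' _ hβ h3, ?_⟩
    rw [map_mul, show Φ β = l * (Φ α0)⁻¹ from uq _ _ _ hβ]
    simp
  let e : (Aut (GG E x0) ⧸ Inn (GG E x0)) ≃* L :=
    (QuotientGroup.quotientMulEquivOfEq hker.symm).trans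
      (QuotientGroup.quotientKerEquivOfSurjective Φ hsurj)
  have he : ∀ α : Aut (GG E x0), e (QuotientGroup.mk α) = Φ α := fun _ => rfl
  have hq : Topology.IsQuotientMap (QuotientGroup.mk : Aut (GG E x0) → _ ⧸ Inn (GG E x0)) :=
    isQuotientMap_quotient_mk'
  have hΦ : Topology.IsQuotientMap Φ := hopen.isQuotientMap hcont hsurj
  refine ⟨{ e with continuous_toFun := ?_, continuous_invFun := ?_ }⟩
  · exact hq.continuous_iff.mpr hcont
  · refine hΦ.continuous_iff.mpr ?_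
    have : (e.symm ∘ Φ : Aut (GG E x0) → _) = QuotientGroup.mk := funext fun α => by
      rw [Function.comp_apply, ← he, MulEquiv.symm_apply_apply]
    exact this ▸ hq.continuous

end Pool.Agent.Lib.MP_94c136_al.RZ
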