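import Pool.Agent.Lib.MP_94c136_al.RZ.Base

/-!
Calculus of the predimension: submodularity and closed sets.
-/

set_option autoImplicit false
set_option linter.unusedSectionVars false

namespace Pool.Agent.Lib.MP_94c136_al.RZ

open scoped Pointwise

variable {M : Type*} [DecidableEq M] {E E' : Set (Finset M)}

open Classical in
/-- the edges inside a finite set -/
noncomputable def ins (E : Set (Finset M)) (Y : Finset M) : Finset (Finset M) :=
  Y.powerset.filter fun e => e ∈ E

theorem mem_ins {Y e : Finset M} : e ∈ ins E Y ↔ e ⊆ Y ∧ e ∈ E := by simp [ins]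

theorem del_ins (E : Set (Finset M)) (Y : Finset M) :
    del E Y = (Y.card : ℤ) - (ins E Y).card := rfl

theorem ins_inter (E : Set (Finset M)) (S T : Finset M) : ins E (S ∩ T) = ins E S ∩ ins E T := by
  ext e
  simp only [mem_ins, Finset.mem_inter, Finset.subset_inter_iff]
  tauto

theorem ins_union (E : Set (Finset M)) (S T : Finset M) : ins E S ∪ ins E T ⊆ ins E (S ∪ T) := by
  intro e he
  rcases Finset.mem_union.1 he with h | h <;> rw [mem_ins] at h ⊢
  · exact ⟨h.1.trans Finset.subset_union_left, h.2⟩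
  · exact ⟨h.1.trans Finset.subset_union_right, h.2⟩

theorem del_submod (E : Set (Finset M)) (S T : Finset M) :
    del E (S ∪ T) + del E (S ∩ T) ≤ del E S + del E T := by
  have a := Finset.card_union_add_card_inter S T
  have b := Finset.card_union_add_card_inter (ins E S) (ins E T)
  have c := Finset.card_le_card (ins_union E S T)
  simp only [del_ins, ins_inter]
  omega

theorem del_mod {S T : Finset M} (h : Fr E S T) :
    del E (S ∪ T) + del E (S ∩ T) = del E S + del E T := by
  have a := Finset.card_union_add_card_inter S T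
  have b := Finset.card_union_add_card_inter (ins E S) (ins E T)
  have c : ins E (S ∪ T) = ins E S ∪ ins E T := by
    refine Finset.Subset.antisymm (fun e he => ?_) (ins_union E S T)
    rw [mem_ins] at he
    rw [Finset.mem_union, mem_ins, mem_ins]
    exact (h e he.2 he.1).imp (fun x => ⟨x, he.2⟩) fun x => ⟨x, he.2⟩
  simp only [del_ins, ins_inter, c]
  omega

theorem del_anti {Y : Finset M} (h : ∀ e, e ⊆ Y → e ∈ E' → e ∈ E) : del E Y ≤ del E' Y := by
  have : ins E' Y ⊆ ins E Y := fun e he => by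
    rw [mem_ins] at he ⊢
    exact ⟨he.1, h e he.1 he.2⟩
  have := Finset.card_le_card this
  simp only [del_ins]
  omega

theorem del_congr {Y : Finset M} (h : ∀ e, e ⊆ Y → (e ∈ E ↔ e ∈ E')) : del E Y = del E' Y := by
  exact le_antisymm (del_anti fun e he => (h e he).2) (del_anti fun e he => (h e he).1)

theorem del_le_card (E : Set (Finset M)) (Y : Finset M) : del E Y ≤ Y.card := by
  simp only [del_ins]
  omega

theorem del_smul {g : Equiv.Perm M} {Y : Finset M} (h : ∀ e, e ⊆ Y → (e ∈ E ↔ g • e ∈ E')) :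
    del E' (g • Y) = del E Y := by
  have : (ins E Y).card = (ins E' (g • Y)).card := by
    refine Finset.card_nbij' (fun e => g • e) (fun e => g⁻¹ • e) (fun e he => ?_) (fun e he => ?_)
      (fun e _ => inv_smul_smul g e) fun e _ => smul_inv_smul g e
    · rw [Finset.mem_coe, mem_ins] at he ⊢
      exact ⟨Finset.smul_finset_subset_smul_finset_iff.2 he.1, (h e he.1).1 he.2⟩
    · rw [Finset.mem_coe, mem_ins] at he ⊢
      have a : g⁻¹ • e ⊆ Y := by
        rw [← inv_smul_smul g Y]
        exact Finset.smul_finset_subset_smul_finset_iff.2 he.1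
      exact ⟨a, (h _ a).2 (by rw [smul_inv_smul]; exact he.2)⟩
  rw [del_ins, del_ins, this, Finset.card_smul_finset]

theorem not_cl_erase {e : Finset M} {b : M} (he : e ∈ E) (hb : b ∈ e) : ¬ Cl E (e.erase b) := by
  intro h
  have a := h e (Finset.erase_ssubset hb)
  have c : ins E (e.erase b) ⊂ ins E e := by
    refine ⟨fun x hx => ?_, fun x => ?_⟩
    · rw [mem_ins] at hx ⊢
      exact ⟨hx.1.trans (Finset.erase_subset _ _), hx.2⟩
    · exact Finset.notMem_erase b e ((mem_ins.1 (x (mem_ins.2 ⟨subset_rfl, he⟩))).1 hb)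
  have c' := Finset.card_lt_card c
  have d := Finset.card_erase_add_one hb
  simp only [del_ins] at a
  omega

theorem exists_edge {Y : Finset M} {b : M} (hb : b ∈ Y) (h : del E Y ≤ del E (Y.erase b)) :
    ∃ e ∈ E, e ⊆ Y ∧ b ∈ e := by
  by_contra c
  have a : ins E Y ⊆ ins E (Y.erase b) := fun e he => by
    rw [mem_ins] at he ⊢
    exact ⟨Finset.subset_erase.2 ⟨he.1, fun x => c ⟨e, he.2, he.1, x⟩⟩, he.2⟩
  have a' := Finset.card_le_card a
  have d := Finset.card_erase_add_one hb
  simp only [del_ins] at h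
  omega

theorem Cl.le {A W : Finset M} (h : Cl E A) (hW : A ⊆ W) : del E A ≤ del E W := by
  rcases hW.eq_or_ssubset with e | e
  · rw [e]
  · exact (h W e).le

theorem Cl.eq_of_le {A W : Finset M} (h : Cl E A) (hW : A ⊆ W) (hd : del E W ≤ del E A) :
    W = A := by
  rcases hW.eq_or_ssubset with e | e
  · exact e.symm
  · exact absurd (h W e) (not_lt.2 hd)

theorem Cl.inter_le {A : Finset M} (h : Cl E A) (Y : Finset M) : del E (Y ∩ A) ≤ del E Y := by
  have a := del_submod E Y A
  have b := h.le (Finset.subset_union_right (s₁ := Y))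
  omega

theorem Cl.inter_lt {A Y : Finset M} (h : Cl E A) (hY : ¬ Y ⊆ A) : del E (Y ∩ A) < del E Y := by
  have a := del_submod E Y A
  have b := h (Y ∪ A) ⟨Finset.subset_union_right, fun x => hY (Finset.subset_union_left.trans x)⟩
  omega

theorem Cl.inter {A B : Finset M} (hA : Cl E A) (hB : Cl E B) : Cl E (A ∩ B) := by
  have key : ∀ {A B : Finset M}, Cl E A → Cl E B → ∀ W, A ∩ B ⊆ W → ¬ W ⊆ A →
      del E (A ∩ B) < del E W := by
    intro A B hA hB W h1 h2
    have a := hA.inter_lt h2
    have b := hB.inter_le (W ∩ A)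
    rw [Finset.inter_assoc, Finset.inter_eq_right.2 h1] at b
    omega
  intro W hW
  by_cases c : W ⊆ A
  · rw [Finset.inter_comm] at hW ⊢
    exact key hB hA W hW.1 fun x => hW.2 (Finset.subset_inter x c)
  · exact key hA hB W hW.1 c

theorem Cl.trans {D Y : Finset M} (hD : Cl E D) (hY : Y ⊆ D)
    (h : ∀ W, Y ⊂ W → W ⊆ D → del E Y < del E W) : Cl E Y := by
  intro W hW
  by_cases c : W ⊆ D
  · exact h W hW c
  have a := hD.inter_lt c
  rcases (Finset.subset_inter hW.1 hY).eq_or_ssubset with e | e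
  · rwa [← e] at a
  · exact (h _ e Finset.inter_subset_right).trans a

theorem Cl.of_agree {D Y : Finset M} (hD : Cl E D) (hY : Y ⊆ D)
    (h : ∀ e, e ⊆ D → (e ∈ E' ↔ e ∈ E)) (hc : Cl E' Y) : Cl E Y := by
  refine hD.trans hY fun W h1 h2 => ?_
  rw [← del_congr fun e he => h e (he.trans hY), ← del_congr fun e he => h e (he.trans h2)]
  exact hc W h1

theorem Cl.of_smul {g : Equiv.Perm M} {D Y : Finset M} (hD : Cl E (g • D)) (hY : Y ⊆ D)
    (h : ∀ e, e ⊆ D → (e ∈ E' ↔ g • e ∈ E)) (hc : Cl E' Y) : Cl E (g • Y) := by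
  refine hD.trans (Finset.smul_finset_subset_smul_finset_iff.2 hY) fun W h1 h2 => ?_
  obtain ⟨V, rfl⟩ : ∃ V, W = g • V := ⟨g⁻¹ • W, (smul_inv_smul g W).symm⟩
  rw [Finset.smul_finset_subset_smul_finset_iff] at h2
  rw [del_smul fun e he => h e (he.trans hY), del_smul fun e he => h e (he.trans h2)]
  exact hc V ⟨Finset.smul_finset_subset_smul_finset_iff.1 h1.1,
    fun x => h1.2 (Finset.smul_finset_subset_smul_finset_iff.2 x)⟩

theorem cl_of_inside {D : Finset M} (h : ∀ e ∈ E, e ⊆ D) : Cl E D := by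
  intro W hW
  have h1 : cnt E W = cnt E D := by
    unfold cnt
    refine congrArg Finset.card ?_
    ext e
    simp only [Finset.mem_filter, Finset.mem_powerset]
    exact ⟨fun he => ⟨h e he.2, he.2⟩, fun he => ⟨he.1.trans hW.subset, he.2⟩⟩
  have h2 := Finset.card_lt_card hW
  unfold del
  omega

theorem Cl.anti {A : Finset M} (h : Cl E A) (h1 : ∀ e ∈ E', e ∈ E)
    (h2 : ∀ e, e ⊆ A → e ∈ E → e ∈ E') : Cl E' A := by
  intro W hW
  have h3 : del E A = del E' A := del_congr fun e he => ⟨h2 e he, h1 e⟩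
  have h4 : del E W ≤ del E' W := del_anti fun e _ he => h1 e he
  have h5 := h W hW
  omega

theorem Cl.res {A B : Finset M} (h : Cl E A) (hAB : A ⊆ B) : Cl (res E B) A := by
  exact h.anti (fun e he => he.1) fun e he hE => ⟨hE, he.trans hAB⟩

theorem ssub_inv_smul {A W : Finset M} {g : Equiv.Perm M} (h : g • A ⊂ W) : A ⊂ g⁻¹ • W := by
  refine Finset.ssubset_iff_subset_ne.2 ⟨?_, ?_⟩
  · have h1 := Finset.smul_finset_subset_smul_finset (a := g⁻¹) h.subset
    rwa [inv_smul_smul] at h1
  · rintro rfl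
    exact h.ne (smul_inv_smul g W)

theorem Cl.tr {A : Finset M} (g : Equiv.Perm M) (h : Cl E A) : Cl (tr g E) (g • A) := by
  intro W hW
  have h1 : ∀ Y, del (RZ.tr g E) (g • Y) = del E Y := fun Y =>
    del_smul fun e _ => (smul_mem_tr g E e).symm
  have h2 := h1 (g⁻¹ • W)
  rw [smul_inv_smul] at h2
  rw [h1, h2]
  exact h _ (ssub_inv_smul hW)

theorem IsAut.del_eq {g : Equiv.Perm M} (hg : IsAut E g) (Y : Finset M) :
    del E (g • Y) = del E Y := by
  exact del_smul fun e _ => (hg e).symm

theorem Cl.smul {A : Finset M} {g : Equiv.Perm M} (hg : IsAut E g) (h : Cl E A) :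
    Cl E (g • A) := by
  intro W hW
  have h2 := hg.del_eq (g⁻¹ • W)
  rw [smul_inv_smul] at h2
  rw [hg.del_eq, h2]
  exact h _ (ssub_inv_smul hW)

theorem Bd.pos (h : Bd E) {Y : Finset M} (hY : Y.Nonempty) : 1 ≤ del E Y := by
  by_contra hc
  have h1 := h Y
  have h2 : (del E Y).toNat = 0 := by omega
  have h3 := hY.card_pos
  rw [h2, pow_zero] at h1
  omega

theorem Bd.cl_empty (h : Bd E) : Cl E ∅ := by
  intro W hW
  have h1 := h.pos (Finset.nonempty_iff_ne_empty.2 hW.ne')
  have h2 := del_le_card E ∅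
  rw [Finset.card_empty] at h2
  omega

theorem Bd.cl_singleton (h : Bd E) (m : M) : Cl E {m} := by
  intro W hW
  have h1 := Finset.card_lt_card hW
  have h2 := del_le_card E {m}
  rw [Finset.card_singleton] at h1 h2
  have h3 := h W
  by_contra hc
  have h4 : 2 ^ (del E W).toNat ≤ 2 ^ 1 := Nat.pow_le_pow_right (by norm_num) (by omega)
  omega

theorem Bd.isCl (h : Bd E) (A : Finset M) : IsCl E A (clo E A) := by
  have hex : ∃ P, IsCl E A P := by
    obtain ⟨d, ⟨W₀, hW₀, hd₀⟩, hd⟩ := Int.exists_least_of_bdd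
      (P := fun z => ∃ W, A ⊆ W ∧ del E W = z) ⟨min 1 (del E ∅), by
        rintro z ⟨W, -, rfl⟩
        rcases W.eq_empty_or_nonempty with rfl | hW
        · exact min_le_right _ _
        · exact (min_le_left _ _).trans (h.pos hW)⟩ ⟨_, A, subset_rfl, rfl⟩
    obtain ⟨c, ⟨P, hAP, hP, hc⟩, hmax⟩ := Int.exists_greatest_of_bdd
      (P := fun z => ∃ W, A ⊆ W ∧ del E W = d ∧ (W.card : ℤ) = z) ⟨(2 ^ d.toNat : ℕ), by
        rintro z ⟨W, -, hW, rfl⟩
        have h1 := h W
        rw [hW] at h1
        exact_mod_cast h1.le⟩ ⟨_, W₀, hW₀, hd₀, rfl⟩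
    have hmin : ∀ W, A ⊆ W → del E P ≤ del E W := fun W hW => hP ▸ hd _ ⟨W, hW, rfl⟩
    refine ⟨P, hAP, fun W hW => ?_, hmin, fun C hC hAC => ?_⟩
    · have h1 := hmin W (hAP.trans hW.subset)
      have h2 := Finset.card_lt_card hW
      by_contra hcon
      have h3 := hmax _ ⟨W, hAP.trans hW.subset, by omega, rfl⟩
      omega
    · by_contra hcon
      have h1 := hC.inter_lt hcon
      have h2 := hmin _ (Finset.subset_inter hAP hAC)
      omega
  unfold clo
  rw [dif_pos hex]
  exact hex.choose_spec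

theorem Bd.card_clo (h : Bd E) (A : Finset M) : (clo E A).card < 2 ^ A.card := by
  have h1 := (h.isCl A).min A subset_rfl
  have h2 := del_le_card E A
  exact (h _).trans_le (Nat.pow_le_pow_right (by norm_num) (by omega))

/-- a closed part of one side together with the other side of a closed free union -/
theorem Cl.free_union {F K A : Finset M} (hc : Cl E (F ∪ K)) (hf : Fr E F K) (hA : Cl E A)
    (hAF : A ⊆ F) (hK : F ∩ K ⊆ A) : Cl E (A ∪ K) ∧ Fr E A K := by
  have hfr : Fr E A K := by
    intro e he hs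
    rcases hf e he (hs.trans (Finset.union_subset_union_left hAF)) with h1 | h1
    · refine Or.inl fun x hx => ?_
      rcases Finset.mem_union.1 (hs hx) with h2 | h2
      · exact h2
      · exact hK (Finset.mem_inter.2 ⟨h1 hx, h2⟩)
    · exact Or.inr h1
  refine ⟨hc.trans (Finset.union_subset_union_left hAF) fun W hW hWD => ?_, hfr⟩
  have hAW : A ⊆ W := Finset.subset_union_left.trans hW.subset
  have hKW : K ⊆ W := Finset.subset_union_right.trans hW.subset
  have e1 : (W ∩ F) ∪ K = W := by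
    ext x
    simp only [Finset.mem_union, Finset.mem_inter]
    constructor
    · rintro (h1 | h1)
      · exact h1.1
      · exact hKW h1
    · intro h1
      rcases Finset.mem_union.1 (hWD h1) with h2 | h2
      · exact Or.inl ⟨h1, h2⟩
      · exact Or.inr h2
  have e2 : (W ∩ F) ∩ K = A ∩ K := by
    ext x
    simp only [Finset.mem_inter]
    exact ⟨fun h1 => ⟨hK (Finset.mem_inter.2 ⟨h1.1.2, h1.2⟩), h1.2⟩,
      fun h1 => ⟨⟨hAW h1.1, hAF h1.1⟩, h1.2⟩⟩
  have hfr2 : Fr E (W ∩ F) K := by
    intro e he hs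
    rw [e1] at hs
    rcases hf e he (hs.trans hWD) with h1 | h1
    · exact Or.inl (Finset.subset_inter hs h1)
    · exact Or.inr h1
  have h1 := del_mod hfr
  have h2 := del_mod hfr2
  rw [e1, e2] at h2
  have h3 := hA (W ∩ F) (Finset.ssubset_iff_subset_ne.2 ⟨Finset.subset_inter hAW hAF, fun h4 => by
    rw [← h4] at e1
    exact hW.ne e1⟩)
  omega

end Pool.Agent.Lib.MP_94c136_al.RZ
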