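import Pool.Agent.Lib.MP_94c136_al.RZ.Wei

/-!
Automorphisms of the group come from twisted automorphisms of the structure.
-/

set_option autoImplicit false
set_option linter.unusedSectionVars false

namespace Pool.Agent.Lib.MP_94c136_al.RZ

open scoped Pointwise

variable {X : Type*} [DecidableEq X] [Countable X] {n : X → X → ℕ} {E : Set (Finset (X × ℕ))}

theorem Gen.fix_inj (hE : Gen n E) {m m' : X × ℕ} (h : Fix E {m} ≤ Fix E {m'}) : m = m' := by
  by_contra hne
  have hb : m' ∉ ({m} : Finset (X × ℕ)) := fun hh => hne (Finset.mem_singleton.1 hh).symm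
  refine hE.orb_infinite (hE.good.bd.cl_singleton m) hb ((Set.finite_singleton m').subset ?_)
  rintro y ⟨g, hg, rfl⟩
  exact h hg m' (Finset.mem_singleton_self _)

theorem Gen.not_all_fix (hE : Gen n E) (m : X × ℕ) : ¬ ∀ g : grp E, g.1 m = m := by
  intro h
  refine hE.orb_infinite hE.good.bd.cl_empty (Finset.notMem_empty m)
    ((Set.finite_singleton m).subset ?_)
  rintro y ⟨g, -, rfl⟩
  exact h g

theorem Gen.eq_of_fix (hE : Gen n E) {m m' : X × ℕ}
    (h : ∀ g : grp E, g.1 m = m → g.1 m' = m') : m = m' := by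
  refine hE.fix_inj fun g hg a ha => ?_
  rw [Finset.mem_singleton.1 ha]
  exact h g (hg m (Finset.mem_singleton_self _))

/-- point stabilisers go to point stabilisers -/
theorem Gen.stab (hE : Gen n E) (α : grp E ≃* grp E)
    (h1 : ∀ V, Opn E V → Opn E (V.comap α.toMonoidHom))
    (h2 : ∀ V, Opn E V → Opn E (V.comap α.symm.toMonoidHom)) (m : X × ℕ) :
    ∃ a, ∀ g : grp E, (α g).1 a = a ↔ g.1 m = m := by
  classical
  have one : ∀ (c : X × ℕ) (g : grp E), g ∈ Fix E {c} ↔ g.1 c = c := fun c g => by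
    simp [mem_Fix]
  obtain ⟨A, -, hA1, hA2⟩ := hE.wei (h2 (Fix E {m}) ⟨{m}, le_rfl⟩)
  have hV : ∀ g : grp E, α g ∈ (Fix E {m}).comap α.symm.toMonoidHom ↔ g.1 m = m := fun g => by
    rw [Subgroup.mem_comap, one]
    simp
  obtain ⟨a, ha⟩ : A.Nonempty := by
    by_contra hne
    rw [Finset.not_nonempty_iff_eq_empty] at hne
    subst hne
    exact hE.not_all_fix m fun g => (hV g).1 (hA1 fun a ha => absurd ha (Finset.notMem_empty a))
  obtain ⟨B, -, hB1, hB2⟩ := hE.wei (h1 (Fix E {a}) ⟨{a}, le_rfl⟩)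
  have hU : ∀ g : grp E, g ∈ (Fix E {a}).comap α.toMonoidHom ↔ (α g).1 a = a := fun g => by
    rw [Subgroup.mem_comap, one]
    rfl
  obtain ⟨b0, hb0⟩ : B.Nonempty := by
    by_contra hne
    rw [Finset.not_nonempty_iff_eq_empty] at hne
    subst hne
    refine hE.not_all_fix a fun g => ?_
    have := (hU (α.symm g)).1 (hB1 fun a ha => absurd ha (Finset.notMem_empty a))
    simpa using this
  have hBm : ∀ b ∈ B, b = m := by
    intro b hb
    by_contra hne
    have hb' : b ∉ ({m} : Finset (X × ℕ)) := fun hh => hne (Finset.mem_singleton.1 hh)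
    refine hE.orb_infinite (hE.good.bd.cl_singleton m) hb' ?_
    have ch : ∀ c : X × ℕ, ∃ s : grp E, (∃ s' : grp E, (α s').1 a = c) → (α s).1 a = c := by
      intro c
      by_cases hc : ∃ s' : grp E, (α s').1 a = c
      · obtain ⟨s', hs'⟩ := hc
        exact ⟨s', fun _ => hs'⟩
      · exact ⟨1, fun hh => absurd hh hc⟩
    choose s hs using ch
    refine (A.biUnion fun c => (s c).1 • B).finite_toSet.subset ?_
    rintro y ⟨g, hg, rfl⟩
    have hgA : (α g).1 a ∈ A := by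
      have := hA2 (α g) ((hV g).2 ((one m g).1 hg))
      rw [← this]
      exact app_mem_smul.2 ha
    have e1 := hs ((α g).1 a) ⟨g, rfl⟩
    have e2 : (α ((s ((α g).1 a))⁻¹ * g)).1 a = a := by
      rw [map_mul, map_inv]
      change (α (s ((α g).1 a))).1⁻¹ ((α g).1 a) = a
      rw [Equiv.Perm.inv_eq_iff_eq, e1]
    have e3 := hB2 _ ((hU _).2 e2)
    have e4 : ((s ((α g).1 a))⁻¹ * g).1 b ∈ B := by
      have : ((s ((α g).1 a))⁻¹ * g).1 b ∈ ((s ((α g).1 a))⁻¹ * g).1 • B := app_mem_smul.2 hb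
      rwa [e3] at this
    refine Finset.mem_coe.2 (Finset.mem_biUnion.2 ⟨_, hgA, mem_smul_iff.2 ⟨_, e4, ?_⟩⟩)
    change (s ((α g).1 a)).1 ((s ((α g).1 a)).1⁻¹ (g.1 b)) = g.1 b
    simp
  have hm : m ∈ B := hBm b0 hb0 ▸ hb0
  refine ⟨a, fun g => ⟨fun hg => ?_, fun hg => ?_⟩⟩
  · have e3 := hB2 g ((hU g).2 hg)
    refine hBm _ ?_
    have : g.1 m ∈ g.1 • B := app_mem_smul.2 hm
    rwa [e3] at this
  · exact (hU g).1 (hB1 fun b hb => by rw [hBm b hb, hg])

theorem nrm_inv {α : grp E ≃* grp E} {π : Equiv.Perm (X × ℕ)}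
    (h : ∀ (g : grp E) m, (α g).1 (π m) = π (g.1 m)) (g : grp E) (m : X × ℕ) :
    (α.symm g).1 (π⁻¹ m) = π⁻¹ (g.1 m) := by
  apply π.injective
  rw [← h]
  simp

theorem Gen.nrm_sort (hE : Gen n E) {α : grp E ≃* grp E} {π : Equiv.Perm (X × ℕ)}
    (h : ∀ (g : grp E) m, (α g).1 (π m) = π (g.1 m)) {m m' : X × ℕ} (hm : m.1 = m'.1) :
    (π m).1 = (π m').1 := by
  obtain ⟨g, rfl⟩ := hE.trans hm
  rw [← h]
  exact ((α g).2.1 (π m)).symm

theorem Gen.nrm_cl (hE : Gen n E) {α : grp E ≃* grp E} {π : Equiv.Perm (X × ℕ)}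
    (h : ∀ (g : grp E) m, (α g).1 (π m) = π (g.1 m)) {A : Finset (X × ℕ)} (hA : Cl E A) :
    Cl E (π • A) := by
  rw [hE.cl_iff] at hA ⊢
  intro b hb
  obtain ⟨c, rfl⟩ := π.surjective b
  have h1 := (hA c fun hc => hb (app_mem_smul.2 hc)).image π.injective.injOn
  refine h1.mono ?_
  rintro _ ⟨_, ⟨g, hg, rfl⟩, rfl⟩
  refine ⟨α g, fun a ha => ?_, h g c⟩
  obtain ⟨y, hy, rfl⟩ := mem_smul_iff.1 ha
  rw [h, hg y hy]

theorem Gen.nrm_edge (hE : Gen n E) {α : grp E ≃* grp E} {π : Equiv.Perm (X × ℕ)}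
    (h : ∀ (g : grp E) m, (α g).1 (π m) = π (g.1 m)) {e : Finset (X × ℕ)} (he : e ∈ E) :
    π • e ∈ E := by
  rw [hE.good.edge_iff] at he ⊢
  refine ⟨he.1.smul_finset, fun Y hY => ?_⟩
  obtain ⟨Z, rfl⟩ : ∃ Z, Y = π • Z := ⟨π⁻¹ • Y, (smul_inv_smul π Y).symm⟩
  rw [Finset.card_smul_finset, Finset.card_smul_finset,
    ← he.2 Z (Finset.smul_finset_subset_smul_finset_iff.1 hY)]
  refine ⟨fun hc => ?_, hE.nrm_cl h⟩
  have := hE.nrm_cl (nrm_inv h) hc
  rwa [inv_smul_smul] at this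

/-- a permutation that normalises the group is a twisted automorphism -/
theorem Gen.normal (hE : Gen n E) (α : grp E ≃* grp E) (π : Equiv.Perm (X × ℕ))
    (h : ∀ (g : grp E) m, (α g).1 (π m) = π (g.1 m)) :
    ∃ lam : Equiv.Perm X, Pres n lam ∧ Tw lam π ∧ IsAut E π := by
  have h' := nrm_inv h
  let lam : Equiv.Perm X :=
    { toFun := fun x => (π (x, 0)).1
      invFun := fun x => (π⁻¹ (x, 0)).1
      left_inv := fun x => by
        have := hE.nrm_sort h' (m := ((π (x, 0)).1, 0)) (m' := π (x, 0)) rfl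
        simpa using this
      right_inv := fun x => by
        have := hE.nrm_sort h (m := ((π⁻¹ (x, 0)).1, 0)) (m' := π⁻¹ (x, 0)) rfl
        simpa using this }
  have htw : Tw lam π := fun m => hE.nrm_sort h (m := m) (m' := (m.1, 0)) rfl
  refine ⟨lam, fun x y hxy => ?_, htw, fun e => ⟨fun he => ?_, hE.nrm_edge h⟩⟩
  · obtain ⟨e, he, hy, hx, hc⟩ := hE.exists_edge (y, 0) (x := x) hxy
    obtain ⟨x', b, hb, -, h2, h3⟩ := hE.good.pat _ (hE.nrm_edge h he)
    obtain ⟨b0, hb0, rfl⟩ := mem_smul_iff.1 hb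
    have hlt : ({(y, 0), b0} : Finset (X × ℕ)).card < e.card := by
      have h4 : ({(y, 0), b0} : Finset (X × ℕ)).card ≤ 2 := Finset.card_le_two
      have h5 := hE.two x y
      simp only at hc
      omega
    obtain ⟨c, hce, hcn⟩ := Finset.exists_mem_notMem_of_card_lt_card hlt
    simp only [Finset.mem_insert, Finset.mem_singleton, not_or] at hcn
    have e1 : lam x = x' := by
      rw [← hx c hce hcn.1, ← htw c]
      exact h2 _ (app_mem_smul.2 hce) fun hh => hcn.2 (π.injective hh)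
    have e2 : b0 = (y, 0) := by
      by_contra hne
      have e3 : lam y = x' :=
        (htw (y, 0)).symm.trans
          (h2 _ (app_mem_smul.2 hy) fun hh => hne (π.injective hh).symm)
      exact hxy (lam.injective (e1.trans e3.symm))
    rw [Finset.card_smul_finset, hc, htw, e2, ← e1] at h3
    exact (Nat.add_right_cancel h3).symm
  · have := hE.nrm_edge h' he
    rwa [inv_smul_smul] at this

theorem Gen.recon (hE : Gen n E) (α : grp E ≃* grp E)
    (h1 : ∀ V, Opn E V → Opn E (V.comap α.toMonoidHom))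
    (h2 : ∀ V, Opn E V → Opn E (V.comap α.symm.toMonoidHom)) :
    ∃ (π : Equiv.Perm (X × ℕ)) (lam : Equiv.Perm X), Pres n lam ∧ Tw lam π ∧ IsAut E π ∧
      ∀ (g : grp E) m, (α g).1 (π m) = π (g.1 m) := by
  choose p hp using hE.stab α h1 h2
  choose q hq using hE.stab α.symm h2 h1
  have l1 : Function.LeftInverse q p := fun m =>
    (hE.eq_of_fix fun g hg => by simpa using (hq (p m) (α g)).2 ((hp m g).2 hg)).symm
  have l2 : Function.RightInverse q p := fun a =>
    (hE.eq_of_fix fun g hg => by simpa using (hp (q a) (α.symm g)).2 ((hq a g).2 hg)).symm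
  have key : ∀ (g : grp E) m, (α g).1 (p m) = p (g.1 m) := by
    intro g m
    refine (hE.eq_of_fix fun k hk => ?_).symm
    have e1 : (α.symm k).1 (g.1 m) = g.1 m := (hp (g.1 m) (α.symm k)).1 (by simpa using hk)
    have e2 : (g⁻¹ * α.symm k * g).1 m = m := by
      change g.1⁻¹ ((α.symm k).1 (g.1 m)) = m
      rw [e1]
      simp
    have e3 := (hp m _).2 e2
    rw [map_mul, map_mul, map_inv, MulEquiv.apply_symm_apply] at e3
    change (α g).1⁻¹ (k.1 ((α g).1 (p m))) = p m at e3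
    rwa [Equiv.Perm.inv_eq_iff_eq] at e3
  obtain ⟨lam, a1, a2, a3⟩ := hE.normal α ⟨p, q, l1, l2⟩ key
  exact ⟨⟨p, q, l1, l2⟩, lam, a1, a2, a3, key⟩

end Pool.Agent.Lib.MP_94c136_al.RZ
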