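import Pool.Agent.Lib.MP_94c136_al.RZ.Free

/-!
Weak elimination of imaginaries.
-/

set_option autoImplicit false
set_option linter.unusedSectionVars false

namespace Pool.Agent.Lib.MP_94c136_al.RZ

open scoped Pointwise

variable {X : Type*} [DecidableEq X] [Countable X] {n : X → X → ℕ} {E : Set (Finset (X × ℕ))}

theorem wei_fr_symm {S T : Finset (X × ℕ)} (h : Fr E S T) : Fr E T S := fun e he hs =>
  (h e he (by rwa [Finset.union_comm])).symm

/-- the stabiliser of a translate by an element of `V` lies in `V` -/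
theorem wei_conj {V : Subgroup (grp E)} {A : Finset (X × ℕ)} (hA : Fix E A ≤ V) {v : grp E}
    (hv : v ∈ V) : Fix E (v.1 • A) ≤ V := by
  intro g hg
  have h1 : v⁻¹ * g * v ∈ Fix E A := by
    intro a ha
    have h2 : g.1 (v.1 a) = v.1 a := hg _ (app_mem_smul.2 ha)
    change v.1⁻¹ (g.1 (v.1 a)) = a
    rw [h2]
    simp
  have h3 : g = v * (v⁻¹ * g * v) * v⁻¹ := by group
  rw [h3]
  exact V.mul_mem (V.mul_mem hv (hA h1)) (V.inv_mem hv)

theorem wei_sub_smul {C A : Finset (X × ℕ)} {g : grp E} (hg : g ∈ Fix E C) (hCA : C ⊆ A) :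
    C ⊆ g.1 • A := by
  intro c hc
  rw [← hg c hc]
  exact app_mem_smul.2 (hCA hc)

/-- a free closed pair of conjugates inside `V` puts the stabiliser of the common part in `V` -/
theorem wei_gen (hE : Gen n E) {V : Subgroup (grp E)} {A C : Finset (X × ℕ)} (hA : Cl E A)
    (hAV : Fix E A ≤ V) (hC : Cl E C) {g : grp E} (hgV : g ∈ V) (hgC : g ∈ Fix E C)
    (hint : A ∩ g.1 • A = C) (hcl : Cl E (A ∪ g.1 • A)) (hfr : Fr E A (g.1 • A)) :
    Fix E C ≤ V := by
  intro h hh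
  have hCA : C ⊆ A := by rw [← hint]; exact Finset.inter_subset_left
  have hF := hE.good.bd.isCl (A ∪ h.1 • A)
  set F := clo E (A ∪ h.1 • A) with hFdef
  have hAF : A ⊆ F := Finset.subset_union_left.trans hF.sub
  have hhF : h.1 • A ⊆ F := Finset.subset_union_right.trans hF.sub
  obtain ⟨k, hk, hki, hkc, hkf⟩ := hE.free_copy hC hA hF.cl hCA (hCA.trans hAF)
  have hCh : C ⊆ h.1 • A := wei_sub_smul hh hCA
  have hCk : C ⊆ k.1 • A := wei_sub_smul hk hCA
  obtain ⟨c1, f1⟩ := Cl.free_union hkc hkf hA hAF (by rw [hki]; exact hCA)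
  obtain ⟨c2, f2⟩ := Cl.free_union hkc hkf (hA.smul h.2.2) hhF (by rw [hki]; exact hCh)
  have i1 : A ∩ k.1 • A = C := by
    apply Finset.Subset.antisymm
    · rw [← hki]
      exact Finset.inter_subset_inter hAF (Finset.Subset.refl _)
    · exact Finset.subset_inter hCA hCk
  have i2 : h.1 • A ∩ k.1 • A = C := by
    apply Finset.Subset.antisymm
    · rw [← hki]
      exact Finset.inter_subset_inter hhF (Finset.Subset.refl _)
    · exact Finset.subset_inter hCh hCk
  have e1 : (k * g⁻¹).1 • (g.1 • A) = k.1 • A := by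
    change (k.1 * g.1⁻¹) • (g.1 • A) = k.1 • A
    rw [mul_smul, inv_smul_smul]
  have hkV : k ∈ V := by
    obtain ⟨w, hw, hw2⟩ := hE.glue (S := A) (T := g.1 • A) (k * g⁻¹)
      (by
        rw [hint]
        exact (Fix E C).mul_mem hk ((Fix E C).inv_mem hgC))
      (by rw [e1, i1, hint]) hcl hfr (by rw [e1]; exact c1) (by rw [e1]; exact f1)
    have h1 : k⁻¹ * w * g ∈ Fix E A := by
      intro a ha
      have h2 := hw2 _ (app_mem_smul.2 ha)
      change w.1 (g.1 a) = k.1 (g.1⁻¹ (g.1 a)) at h2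
      change k.1⁻¹ (w.1 (g.1 a)) = a
      rw [h2]
      simp
    have h3 : k = w * g * (k⁻¹ * w * g)⁻¹ := by group
    rw [h3]
    exact V.mul_mem (V.mul_mem (hAV hw) hgV) (V.inv_mem (hAV h1))
  obtain ⟨w, hw, hw2⟩ := hE.glue (S := k.1 • A) (T := A) h
    (by
      rw [Finset.inter_comm, i1]
      exact hh)
    (by rw [Finset.inter_comm, i2, Finset.inter_comm, i1])
    (by rw [Finset.union_comm]; exact c1) (wei_fr_symm f1)
    (by rw [Finset.union_comm]; exact c2) (wei_fr_symm f2)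
  have h1 : h⁻¹ * w ∈ Fix E A := by
    intro a ha
    change h.1⁻¹ (w.1 a) = a
    rw [hw2 a ha]
    simp
  have h3 : h = w * (h⁻¹ * w)⁻¹ := by group
  rw [h3]
  exact V.mul_mem (wei_conj hAV hkV hw) (V.inv_mem (hAV h1))

/-- at a maximum of the predimension a free conjugate of `A` over `A'` appears -/
theorem wei_max (hE : Gen n E) {V : Subgroup (grp E)} {A : Finset (X × ℕ)} (hA : Cl E A)
    (hAV : Fix E A ≤ V) {v : grp E} (hv : v ∈ V)
    (hmax : ∀ u ∈ V, del E (clo E (A ∪ u.1 • A)) ≤ del E (clo E (A ∪ v.1 • A))) :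
    Fix E (A ∩ v.1 • A) ≤ V := by
  have hA' : Cl E (v.1 • A) := hA.smul v.2.2
  have hdA' : del E (v.1 • A) = del E A := v.2.2.del_eq A
  have hA'V : Fix E (v.1 • A) ≤ V := wei_conj hAV hv
  generalize v.1 • A = A' at *
  have hP := hE.good.bd.isCl (A ∪ A')
  generalize clo E (A ∪ A') = P at *
  have hAP : A ⊆ P := Finset.subset_union_left.trans hP.sub
  have hA'P : A' ⊆ P := Finset.subset_union_right.trans hP.sub
  obtain ⟨g, hg, hgi, hgc, hgf⟩ := hE.free_copy hA' hP.cl hP.cl hA'P hA'P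
  have hgV : g ∈ V := hA'V hg
  have hQd := hmax g hgV
  have hQ := hE.good.bd.isCl (A ∪ g.1 • A)
  generalize clo E (A ∪ g.1 • A) = Q at *
  have hAQ : A ⊆ Q := Finset.subset_union_left.trans hQ.sub
  have hgQ : g.1 • A ⊆ Q := Finset.subset_union_right.trans hQ.sub
  have hgP : g.1 • A ⊆ g.1 • P := Finset.smul_finset_subset_smul_finset hAP
  have hA'g : A' ⊆ g.1 • P := wei_sub_smul hg hA'P
  have hQP : Q ⊆ P ∪ g.1 • P := hQ.least _ hgc (Finset.union_subset_union hAP hgP)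
  have hu : (Q ∩ P) ∪ (Q ∩ g.1 • P) = Q := by
    rw [← Finset.inter_union_distrib_left]
    exact Finset.inter_eq_left.2 hQP
  have hi : (Q ∩ P) ∩ (Q ∩ g.1 • P) = Q ∩ A' := by
    rw [← hgi]
    ext x
    simp only [Finset.mem_inter]
    tauto
  have hi1 : (Q ∩ P) ∩ A' = Q ∩ A' := by
    rw [Finset.inter_assoc, Finset.inter_eq_right.2 hA'P]
  have hi2 : (Q ∩ g.1 • P) ∩ A' = Q ∩ A' := by
    rw [Finset.inter_assoc, Finset.inter_eq_right.2 hA'g]
  have hfr : Fr E (Q ∩ P) (Q ∩ g.1 • P) := by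
    intro e he hs
    rw [hu] at hs
    rcases hgf e he (hs.trans hQP) with h | h
    · exact Or.inl (Finset.subset_inter hs h)
    · exact Or.inr (Finset.subset_inter hs h)
  have m0 := del_mod hfr
  rw [hu, hi] at m0
  have s1 := del_submod E (Q ∩ P) A'
  have s2 := del_submod E (Q ∩ g.1 • P) A'
  rw [hi1] at s1
  rw [hi2] at s2
  have hA1 : A ⊆ Q ∩ P := Finset.subset_inter hAQ hAP
  have hA2 : g.1 • A ⊆ Q ∩ g.1 • P := Finset.subset_inter hgQ hgP
  have l1 : del E P ≤ del E ((Q ∩ P) ∪ A') :=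
    hP.min _ (Finset.union_subset_union hA1 (Finset.Subset.refl _))
  have l2 : del E P ≤ del E ((Q ∩ g.1 • P) ∪ A') := by
    rw [← g.2.2.inv.del_eq ((Q ∩ g.1 • P) ∪ A')]
    apply hP.min
    rw [← Finset.smul_finset_subset_smul_finset_iff (a := g.1), smul_inv_smul,
      Finset.smul_finset_union, smul_eq_self hg]
    exact Finset.union_subset_union hA2 (Finset.Subset.refl _)
  have hdg : del E (g.1 • A) = del E A := g.2.2.del_eq A
  have e1 : Q ∩ P = A := hA.eq_of_le hA1 (by linarith)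
  have e2 : Q ∩ g.1 • P = g.1 • A := (hA.smul g.2.2).eq_of_le hA2 (by linarith)
  rw [e1, e2] at hu hi hfr
  rw [e1] at hi1
  refine wei_gen hE hA hAV (hA.inter hA') hgV ?_ (by rw [hi, hi1]) (by rw [hu]; exact hQ.cl) hfr
  intro a ha
  exact hg a (Finset.mem_inter.1 ha).2

theorem Gen.wei (hE : Gen n E) {V : Subgroup (grp E)} (hV : Opn E V) :
    ∃ A, Cl E A ∧ Fix E A ≤ V ∧ ∀ v ∈ V, v.1 • A = A := by
  classical
  have hex : ∃ c : ℕ, ∃ A : Finset (X × ℕ), Cl E A ∧ Fix E A ≤ V ∧ A.card = c := by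
    obtain ⟨F, hF⟩ := hV
    have h := hE.good.bd.isCl F
    exact ⟨_, clo E F, h.cl, fun g hg => hF fun a ha => hg a (h.sub ha), rfl⟩
  obtain ⟨A, hA, hAV, hAc⟩ := Nat.find_spec hex
  have hmin : ∀ C : Finset (X × ℕ), Cl E C → Fix E C ≤ V → A.card ≤ C.card := by
    intro C hC hCV
    rw [hAc]
    exact Nat.find_min' hex ⟨C, hC, hCV, rfl⟩
  obtain ⟨d, ⟨v, hv, hvd⟩, hd⟩ := Int.exists_greatest_of_bdd
    (P := fun d => ∃ v ∈ V, del E (clo E (A ∪ v.1 • A)) = d)
    ⟨2 * A.card, by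
      rintro d ⟨v, hv, rfl⟩
      have h1 := (hE.good.bd.isCl (A ∪ v.1 • A)).min _ (Finset.Subset.refl _)
      have h2 := del_le_card E (A ∪ v.1 • A)
      have h3 := Finset.card_union_le A (v.1 • A)
      rw [Finset.card_smul_finset] at h3
      have h4 : ((A ∪ v.1 • A).card : ℤ) ≤ A.card + A.card := by exact_mod_cast h3
      linarith⟩
    ⟨_, 1, V.one_mem, rfl⟩
  have hmax : ∀ u ∈ V, del E (clo E (A ∪ u.1 • A)) ≤ del E (clo E (A ∪ v.1 • A)) := by
    intro u hu
    rw [hvd]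
    exact hd _ ⟨u, hu, rfl⟩
  have hC := wei_max hE hA hAV hv hmax
  have hCA : A ∩ v.1 • A = A :=
    Finset.eq_of_subset_of_card_le Finset.inter_subset_left
      (hmin _ (hA.inter (hA.smul v.2.2)) hC)
  have hvA : A = v.1 • A :=
    Finset.eq_of_subset_of_card_le (Finset.inter_eq_left.1 hCA)
      (by rw [Finset.card_smul_finset])
  refine ⟨A, hA, hAV, fun u hu => ?_⟩
  have h1 := hmax u hu
  rw [← hvA, Finset.union_idempotent] at h1
  have h2 := (hE.good.bd.isCl A).min _ (Finset.Subset.refl _)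
  have h3 := hE.good.bd.isCl (A ∪ u.1 • A)
  have h4 : clo E (A ∪ u.1 • A) = A :=
    hA.eq_of_le (Finset.subset_union_left.trans h3.sub) (h1.trans h2)
  have h5 : u.1 • A ⊆ A := by
    have := Finset.subset_union_right.trans h3.sub
    rwa [h4] at this
  exact Finset.eq_of_subset_of_card_le h5 (by rw [Finset.card_smul_finset])

end Pool.Agent.Lib.MP_94c136_al.RZ
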